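import Mathlib

/-!
# SLitE: the pointwise inequality `u² v ≤ a X + (1-a) ((1-τ)² X + τ² Y)`, `X = -log (1-u²)`, `Y = -log (1-v²)`, `a = 1/6`
-/

set_option autoImplicit false

namespace Pool.Agent.SLit

open Real

/-- `-log (1-q) ≥ 2q/(2-q)` -/
theorem log_low {q : ℝ} (h0 : 0 ≤ q) (h1 : q < 1) : 2 * q / (2 - q) ≤ -Real.log (1 - q) := by
  have h2 : 0 < 2 - q := by linarith
  set y : ℝ := q / (2 - q) with hy
  have hy0 : 0 ≤ y := by positivity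
  have hy1 : y < 1 := by
    rw [hy, div_lt_one h2]; linarith
  have h3 := Real.hasSum_log_sub_log_of_abs_lt_one (x := y) (by rw [abs_of_nonneg hy0]; exact hy1)
  have h4 := h3.summable.sum_le_tsum {0} (fun k _ => by positivity)
  rw [Finset.sum_singleton, h3.tsum_eq] at h4
  have h5 : (1 + y) / (1 - y) = (1 - q)⁻¹ := by
    have : 1 - y = (2 - 2 * q) / (2 - q) := by rw [hy]; field_simp; ring
    have h6 : 1 + y = 2 / (2 - q) := by rw [hy]; field_simp; ring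
    rw [this, h6]
    have h7 : (1 - q) ≠ 0 := by linarith
    have h8 : (2 - 2 * q) ≠ 0 := by
      have : 0 < 2 - 2 * q := by linarith
      exact this.ne'
    field_simp
  have h6 : Real.log (1 + y) - Real.log (1 - y) = -Real.log (1 - q) := by
    rw [← Real.log_div (by linarith) (by linarith), h5, Real.log_inv]
  rw [h6] at h4
  refine le_trans (le_of_eq ?_) h4
  rw [hy]
  norm_num
  ring

theorem pw_poly {q v : ℝ} (hq0 : 0 ≤ q) (hv0 : 0 ≤ v) (hv1 : v ≤ 1) :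
    0 ≤ v ^ 2 * (2 - q) * (2 - v * (2 - q)) + (q / 3) * (2 - v ^ 2) - q * v * (2 - q) * (2 - v ^ 2) := by
  have e : v ^ 2 * (2 - q) * (2 - v * (2 - q)) + (q / 3) * (2 - v ^ 2) - q * v * (2 - q) * (2 - v ^ 2) =
      2 * v * (1 - v) * (2 * v + (1 + v) * q ^ 2) + q * (6 * v ^ 3 - 7 / 3 * v ^ 2 - 4 * v + 2 / 3) := by ring
  rw [e]
  have key : ∀ κ : ℝ, κ ^ 2 ≤ 2 * v * (1 + v) → 0 ≤ 4 * v * (1 - v) * κ + (6 * v ^ 3 - 7 / 3 * v ^ 2 - 4 * v + 2 / 3) →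
      0 ≤ 2 * v * (1 - v) * (2 * v + (1 + v) * q ^ 2) + q * (6 * v ^ 3 - 7 / 3 * v ^ 2 - 4 * v + 2 / 3) := by
    intro κ h1 h2
    have h3 : 0 ≤ (1 + v) * (2 * v + (1 + v) * q ^ 2 - 2 * κ * q) := by
      nlinarith [sq_nonneg ((1 + v) * q - κ)]
    have h4 : 0 ≤ 2 * v + (1 + v) * q ^ 2 - 2 * κ * q := by
      by_contra h5
      push Not at h5
      nlinarith [mul_pos_of_neg_of_neg (show -(1 + v) < 0 by linarith) h5]
    have h5 : 0 ≤ 2 * v * (1 - v) := by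
      have := sub_nonneg.2 hv1
      positivity
    have h6 := mul_nonneg h5 h4
    have h7 := mul_nonneg hq0 h2
    nlinarith
  by_cases h1 : v ≤ 3 / 20
  · have h2 : 0 ≤ 6 * v ^ 3 - 7 / 3 * v ^ 2 - 4 * v + 2 / 3 := by
      nlinarith [pow_nonneg hv0 3, mul_nonneg hv0 (sub_nonneg.2 h1)]
    have h3 := sub_nonneg.2 hv1
    have h4 := mul_nonneg hq0 h2
    positivity
  · push Not at h1
    by_cases h2 : v ≤ 3 / 10
    · refine key (1 / 10 + 2 * v) (by nlinarith) ?_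
      nlinarith [mul_nonneg (sub_nonneg.2 h2) hv0, mul_nonneg (sub_nonneg.2 h2) (sub_nonneg.2 h1.le),
        mul_nonneg (mul_nonneg (sub_nonneg.2 h2) (sub_nonneg.2 h1.le)) hv0,
        mul_nonneg (mul_nonneg (sub_nonneg.2 h2) (sub_nonneg.2 h2)) hv0]
    · push Not at h2
      refine key (2 / 5 + 8 / 5 * v) (by nlinarith [mul_nonneg (sub_nonneg.2 h2.le) (sub_nonneg.2 hv1)]) ?_
      nlinarith [mul_nonneg (sub_nonneg.2 h2.le) (sub_nonneg.2 hv1), sq_nonneg (v - 14 / 25),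
        mul_nonneg (sub_nonneg.2 hv1) (sq_nonneg (v - 14 / 25)), mul_nonneg hv0 (sq_nonneg (v - 14 / 25))]

/-- the inequality `u² v (X+Y) ≤ X (X/6 + Y)` -/
theorem pw_core {u v : ℝ} (hu0 : 0 ≤ u) (hu1 : u < 1) (hv0 : 0 ≤ v) (hv1 : v < 1) :
    u ^ 2 * v * (-Real.log (1 - u ^ 2) + -Real.log (1 - v ^ 2)) ≤
      -Real.log (1 - u ^ 2) * ((1 / 6) * -Real.log (1 - u ^ 2) + -Real.log (1 - v ^ 2)) := by
  have hq0 : 0 ≤ u ^ 2 := sq_nonneg u
  have hq1 : u ^ 2 < 1 := by nlinarith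
  have hp0 : 0 ≤ v ^ 2 := sq_nonneg v
  have hp1 : v ^ 2 < 1 := by nlinarith
  have hX := log_low hq0 hq1
  have hY := log_low hp0 hp1
  generalize -Real.log (1 - u ^ 2) = X at hX ⊢
  generalize -Real.log (1 - v ^ 2) = Y at hY ⊢
  have hP := pw_poly hq0 hv0 hv1.le
  generalize u ^ 2 = q at *
  have h2q : 0 < 2 - q := by linarith
  have h2p : 0 < 2 - v ^ 2 := by linarith
  obtain ⟨X0, hX0⟩ : ∃ X0, X0 = 2 * q / (2 - q) := ⟨_, rfl⟩
  obtain ⟨Y0, hY0⟩ : ∃ Y0, Y0 = 2 * v ^ 2 / (2 - v ^ 2) := ⟨_, rfl⟩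
  rw [← hX0] at hX
  rw [← hY0] at hY
  have h1 : q ≤ X0 := by
    rw [hX0, le_div_iff₀ h2q]; nlinarith
  have h2 : v ^ 2 ≤ Y0 := by
    rw [hY0, le_div_iff₀ h2p]; nlinarith
  have h3 : 0 ≤ Y0 * (X0 - q * v) + (1 / 6) * X0 ^ 2 - q * v * X0 := by
    have e : Y0 * (X0 - q * v) + (1 / 6) * X0 ^ 2 - q * v * X0 =
        2 * q * (v ^ 2 * (2 - q) * (2 - v * (2 - q)) + (q / 3) * (2 - v ^ 2) - q * v * (2 - q) * (2 - v ^ 2)) /
          ((2 - q) ^ 2 * (2 - v ^ 2)) := by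
      rw [hX0, hY0]
      field_simp
      ring
    rw [e]
    have := mul_nonneg (mul_nonneg (zero_le_two (α := ℝ)) hq0) hP
    positivity
  have hqv : q * v ≤ q := mul_le_of_le_one_right hq0 hv1.le
  have h4 : 0 ≤ (Y - Y0) * (X - q * v) := mul_nonneg (by linarith) (by linarith)
  have h5 : 0 ≤ (X - X0) * (Y0 + (1 / 6) * (X + X0) - q * v) := by
    refine mul_nonneg (by linarith) ?_
    have h6 : 0 ≤ v ^ 2 - q * v + q / 3 := by nlinarith [sq_nonneg (v - q / 2)]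
    linarith
  nlinarith

/-- the pointwise inequality -/
theorem pw {u v τ : ℝ} (hu0 : 0 ≤ u) (hu1 : u < 1) (hv0 : 0 ≤ v) (hv1 : v < 1) :
    u ^ 2 * v ≤ (1 / 6) * -Real.log (1 - u ^ 2) +
      (5 / 6) * ((1 - τ) ^ 2 * -Real.log (1 - u ^ 2) + τ ^ 2 * -Real.log (1 - v ^ 2)) := by
  have h := pw_core hu0 hu1 hv0 hv1
  have hq0 : 0 ≤ u ^ 2 := sq_nonneg u
  have hq1 : u ^ 2 < 1 := by nlinarith
  have hp0 : 0 ≤ v ^ 2 := sq_nonneg v
  have hp1 : v ^ 2 < 1 := by nlinarith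
  have hX : u ^ 2 ≤ -Real.log (1 - u ^ 2) := by
    have := Real.log_le_sub_one_of_pos (show 0 < 1 - u ^ 2 by linarith)
    linarith
  have hY : v ^ 2 ≤ -Real.log (1 - v ^ 2) := by
    have := Real.log_le_sub_one_of_pos (show 0 < 1 - v ^ 2 by linarith)
    linarith
  generalize -Real.log (1 - u ^ 2) = X at *
  generalize -Real.log (1 - v ^ 2) = Y at *
  have hX0 : 0 ≤ X := hq0.trans hX
  have hY0 : 0 ≤ Y := hp0.trans hY
  rcases eq_or_lt_of_le (add_nonneg hX0 hY0) with h0 | h0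
  · have h1 : X = 0 := by linarith
    have h2 : Y = 0 := by linarith
    have h3 : u ^ 2 = 0 := by linarith
    rw [h3, h1, h2]
    norm_num
  · have h1 : (u ^ 2 * v) * (X + Y) ≤
        ((1 / 6) * X + (5 / 6) * ((1 - τ) ^ 2 * X + τ ^ 2 * Y)) * (X + Y) := by
      nlinarith [sq_nonneg ((1 - τ) * X - τ * Y)]
    exact le_of_mul_le_mul_right h1 h0

end Pool.Agent.SLit
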