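import Pool.Agent.Lib_SLitE.Ent
import Pool.Agent.Lib_SLitE.PW

/-!
# SLitE piece CROSS: the coefficient `co n (U² V)`
-/

set_option autoImplicit false

namespace Pool.Agent.SLit

open MeasureTheory AddCircle

theorem cont_ent {U : CC} (hU : ∀ x, ‖U x‖ < 1) : Continuous (fun x => -Real.log (1 - ‖U x‖ ^ 2)) := by
  refine Continuous.neg (Continuous.log (by fun_prop) fun x => ?_)
  have h1 := hU x
  have h2 := norm_nonneg (U x)
  have : 0 < 1 - ‖U x‖ ^ 2 := by nlinarith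
  exact this.ne'

theorem cross_int {U V : CC} (hU : ∀ x, ‖U x‖ < 1) (hV : ∀ x, ‖V x‖ < 1) (n : ℤ) (τ : ℝ) :
    ‖co n (U * U * V)‖ ≤ (1 / 6) * ent U + (5 / 6) * ((1 - τ) ^ 2 * ent U + τ ^ 2 * ent V) := by
  refine (norm_co_le n _).trans ?_
  have hIU : Integrable (fun x => -Real.log (1 - ‖U x‖ ^ 2)) (haarAddCircle (T := (1:ℝ))) :=
    integrable_cc _ (cont_ent hU)
  have hIV : Integrable (fun x => -Real.log (1 - ‖V x‖ ^ 2)) (haarAddCircle (T := (1:ℝ))) :=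
    integrable_cc _ (cont_ent hV)
  obtain ⟨α, hα⟩ : ∃ α : ℝ, α = 1 / 6 + (5 / 6) * (1 - τ) ^ 2 := ⟨_, rfl⟩
  obtain ⟨γ, hγ⟩ : ∃ γ : ℝ, γ = (5 / 6) * τ ^ 2 := ⟨_, rfl⟩
  have h1 : ∫ x, ‖(U * U * V) x‖ ∂(haarAddCircle (T := (1:ℝ))) ≤
      ∫ x, (α * -Real.log (1 - ‖U x‖ ^ 2) + γ * -Real.log (1 - ‖V x‖ ^ 2)) ∂(haarAddCircle (T := (1:ℝ))) := by
    refine integral_mono (integrable_cc _ (by fun_prop)) ((hIU.const_mul _).add (hIV.const_mul _)) fun x => ?_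
    show ‖U x * U x * V x‖ ≤ _
    rw [norm_mul, norm_mul, ← sq]
    refine (pw (τ := τ) (norm_nonneg _) (hU x) (norm_nonneg _) (hV x)).trans (le_of_eq ?_)
    rw [hα, hγ]; ring
  have h2 : ∫ x, (α * -Real.log (1 - ‖U x‖ ^ 2) + γ * -Real.log (1 - ‖V x‖ ^ 2)) ∂(haarAddCircle (T := (1:ℝ))) =
      α * ent U + γ * ent V := by
    rw [integral_add (hIU.const_mul _) (hIV.const_mul _), integral_const_mul, integral_const_mul]
    rfl
  rw [h2] at h1
  refine h1.trans (le_of_eq ?_)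
  rw [hα, hγ]; ring

theorem co_sub (n : ℤ) (f g : CC) : co n (f - g) = co n f - co n g := by
  have h := co_add n (f - g) g
  rw [sub_add_cancel] at h
  rw [h]; ring

theorem cross_eq {U V Us Vs : CC} {n : ℤ} (hU : HS 1 U) (hV : HS 1 V) (hUs : HS 1 Us)
    (h1 : ∀ p < n, co p Us = co p U) (h2 : ∀ p < n, co p Vs = co p V) :
    co n (U * U * V) = co n (Us * Us * Vs) := by
  have hDU : HS n (U - Us) := by
    intro p hp
    rw [co_sub, h1 p hp, sub_self]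
  have hDV : HS n (V - Vs) := by
    intro p hp
    rw [co_sub, h2 p hp, sub_self]
  have e : U * U * V = Us * Us * Vs + ((U - Us) * ((U + Us) * V) + (V - Vs) * (Us * Us)) := by ring
  have h3 : co n ((U - Us) * ((U + Us) * V)) = 0 := by
    have := HS.mul hDU (HS.mul (hU.add hUs) hV)
    exact this n (by omega)
  have h4 : co n ((V - Vs) * (Us * Us)) = 0 := by
    have := HS.mul hDV (HS.mul hUs hUs)
    exact this n (by omega)
  rw [e, co_add, co_add, h3, h4, add_zero, add_zero]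

theorem cross_bound {U V Us Vs : CC} {n : ℤ} (hU : HS 1 U) (hV : HS 1 V) (hUs : HS 1 Us)
    (h1 : ∀ p < n, co p Us = co p U) (h2 : ∀ p < n, co p Vs = co p V)
    (hUl : ∀ x, ‖Us x‖ < 1) (hVl : ∀ x, ‖Vs x‖ < 1) {X Y : ℝ} (hX : 0 < X) (hY : 0 < Y)
    (hUe : ent Us ≤ 1 / X) (hVe : ent Vs ≤ 1 / Y) :
    ‖co n (U * U * V)‖ ≤ (1 / 6) * (1 / X) + (5 / 6) * (1 / (X + Y)) := by
  rw [cross_eq hU hV hUs h1 h2]
  refine (cross_int hUl hVl n (Y / (X + Y))).trans ?_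
  have hXY : 0 < X + Y := by linarith
  have e1 : 1 - Y / (X + Y) = X / (X + Y) := by field_simp; ring
  have e2 : (X / (X + Y)) ^ 2 * (1 / X) + (Y / (X + Y)) ^ 2 * (1 / Y) = 1 / (X + Y) := by
    field_simp
  rw [e1]
  have h3 := mul_le_mul_of_nonneg_left hUe (sq_nonneg (X / (X + Y)))
  have h4 := mul_le_mul_of_nonneg_left hVe (sq_nonneg (Y / (X + Y)))
  rw [← e2]
  linarith

end Pool.Agent.SLit
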