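import Pool.Agent.Lib_SLit.Mul

/-!
# SLitE piece LOGINT: `∫ log |1 + w| = 0`
-/

set_option autoImplicit false

namespace Pool.Agent.SLit

open MeasureTheory AddCircle

theorem HS.powD {D : ℤ} (hD : 0 ≤ D) {U : CC} (hU : HS D U) (k : ℕ) : HS D (U ^ (k + 1)) := by
  have hU0 : HS 0 U := hU.mono hD
  rw [pow_succ]
  have := HS.mul (HS.pow0 hU0 k) hU
  simpa using this

theorem HS.zero (m : ℤ) : HS m (0 : CC) := fun n _ => co_zero' n

/-- `∫ log |1 + w| = 0` for `|w| < 1`, `w` with spectrum in `{1, 2, …}` -/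
theorem log_int {w : CC} (hw : ‖w‖ < 1) (h1 : HS 1 w) :
    ∫ x, Real.log ‖(1 + w) x‖ ∂(haarAddCircle (T := (1:ℝ))) = 0 := by
  set f : ℕ → CC := fun k => ((-1 : ℂ) ^ (k + 1) / k) • w ^ k with hf
  have hnf : ∀ k, ‖f k‖ ≤ ‖w‖ ^ k := by
    intro k
    have h2 : ‖((-1 : ℂ) ^ (k + 1) / k)‖ ≤ 1 := by
      rw [norm_div, norm_pow, norm_neg, norm_one, one_pow, Complex.norm_natCast]
      rcases Nat.eq_zero_or_pos k with h0 | h0
      · rw [h0]; simp
      · rw [div_le_one (by exact_mod_cast h0)]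
        exact_mod_cast h0
    rw [ContinuousMap.norm_le _ (by positivity)]
    intro x
    show ‖((-1 : ℂ) ^ (k + 1) / k) * (w x) ^ k‖ ≤ ‖w‖ ^ k
    rw [norm_mul, norm_pow]
    calc ‖((-1 : ℂ) ^ (k + 1) / k)‖ * ‖w x‖ ^ k ≤ 1 * ‖w‖ ^ k :=
          mul_le_mul h2 (pow_le_pow_left₀ (norm_nonneg _) (w.norm_coe_le_norm x) k) (by positivity) zero_le_one
      _ = ‖w‖ ^ k := one_mul _
  have hs : Summable f :=
    Summable.of_norm_bounded (summable_geometric_of_lt_one (norm_nonneg _) hw) hnf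
  have hHS : HS 1 (∑' k, f k) := by
    refine (HS.closed 1).mem_of_tendsto hs.hasSum.tendsto_sum_nat ?_
    refine Filter.Eventually.of_forall fun N => ?_
    show HS 1 (∑ k ∈ Finset.range N, f k)
    induction N with
    | zero =>
      rw [Finset.sum_range_zero]
      exact HS.zero 1
    | succ N ih =>
      rw [Finset.sum_range_succ]
      refine ih.add ?_
      rcases Nat.eq_zero_or_pos N with h0 | h0
      · rw [h0, hf]
        have : ((-1 : ℂ) ^ (0 + 1) / ((0 : ℕ) : ℂ)) • w ^ 0 = 0 := by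
          refine ContinuousMap.ext fun x => ?_
          show ((-1 : ℂ) ^ (0 + 1) / ((0 : ℕ) : ℂ)) * (w x) ^ 0 = 0
          simp
        show HS 1 (((-1 : ℂ) ^ (0 + 1) / ((0 : ℕ) : ℂ)) • w ^ 0)
        rw [this]
        exact HS.zero 1
      · obtain ⟨M, rfl⟩ : ∃ M, N = M + 1 := ⟨N - 1, by omega⟩
        exact (HS.powD zero_le_one h1 M).smul _
  have hval : ∀ x, (∑' k, f k) x = Complex.log (1 + w x) := by
    intro x
    have hwx : ‖w x‖ < 1 := lt_of_le_of_lt (w.norm_coe_le_norm x) hw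
    have h2 := Complex.hasSum_taylorSeries_log hwx
    have h3 := (ContinuousMap.evalCLM ℂ x).hasSum hs.hasSum
    refine HasSum.unique (f := fun k : ℕ => (-1 : ℂ) ^ (k + 1) * (w x) ^ k / k) ?_ h2
    refine h3.congr_fun ?_
    intro k
    show (-1 : ℂ) ^ (k + 1) * (w x) ^ k / k = ((-1 : ℂ) ^ (k + 1) / k) * (w x) ^ k
    ring
  have h2 : co 0 (∑' k, f k) = 0 := hHS 0 (by norm_num)
  rw [co_eq] at h2
  have h3 : ∀ x, ex (-0) x * (∑' k, f k) x = Complex.log (1 + w x) := by
    intro x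
    rw [neg_zero, ex_zero, hval]
    simp
  simp only [h3] at h2
  have hint : Integrable (fun x => Complex.log (1 + w x)) (haarAddCircle (T := (1:ℝ))) := by
    refine (integrable_cc (fun x => (∑' k, f k) x) (by fun_prop)).congr ?_
    exact Filter.Eventually.of_forall hval
  have h4 := integral_re hint
  rw [h2] at h4
  have h5 : (fun x : UnitAddCircle => Real.log ‖(1 + w) x‖) = fun x => RCLike.re (Complex.log (1 + w x)) := by
    funext x
    show _ = (Complex.log (1 + w x)).re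
    rw [Complex.log_re]
    rfl
  rw [h5, h4]
  simp

end Pool.Agent.SLit
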