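import Pool.Agent.Lib_SLit.Mul

/-!
# SLitE piece STEP2: the next stage of the cascade, with the formula for the new `H`
-/

set_option autoImplicit false

namespace Pool.Agent.SLit

open MeasureTheory AddCircle

private lemma step_star_mul (A B : CC) (ρ : ℝ) (h : ∀ x, ‖B x‖ ^ 2 - ‖A x‖ ^ 2 = ρ) :
    star B * B - star A * A = (ρ : ℂ) • (1 : CC) := by
  refine ContinuousMap.ext fun x => ?_
  have h1 : (starRingEnd ℂ (B x)) * B x = ((‖B x‖ ^ 2 : ℝ) : ℂ) := by
    rw [mul_comm, Complex.mul_conj, Complex.normSq_eq_norm_sq]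
  have h2 : (starRingEnd ℂ (A x)) * A x = ((‖A x‖ ^ 2 : ℝ) : ℂ) := by
    rw [mul_comm, Complex.mul_conj, Complex.normSq_eq_norm_sq]
  show (starRingEnd ℂ (B x)) * B x - (starRingEnd ℂ (A x)) * A x = (ρ : ℂ) * 1
  rw [h1, h2, ← Complex.ofReal_sub, h x, mul_one]

private lemma step_point (a b e γ : ℂ) (he : e * starRingEnd ℂ e = 1) :
    ‖b + γ * (e * starRingEnd ℂ a)‖ ^ 2 - ‖a + γ * (e * starRingEnd ℂ b)‖ ^ 2
      = (1 - ‖γ‖ ^ 2) * (‖b‖ ^ 2 - ‖a‖ ^ 2) := by
  have hn : ∀ z : ℂ, ((‖z‖ ^ 2 : ℝ) : ℂ) = z * starRingEnd ℂ z := by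
    intro z
    rw [Complex.mul_conj, Complex.normSq_eq_norm_sq]
  have key : (((‖b + γ * (e * starRingEnd ℂ a)‖ ^ 2 - ‖a + γ * (e * starRingEnd ℂ b)‖ ^ 2 : ℝ)) : ℂ)
      = (((1 - ‖γ‖ ^ 2) * (‖b‖ ^ 2 - ‖a‖ ^ 2) : ℝ) : ℂ) := by
    rw [Complex.ofReal_sub, Complex.ofReal_mul, Complex.ofReal_sub, Complex.ofReal_sub,
      hn, hn, hn, hn, hn]
    simp only [map_add, map_mul, Complex.conj_conj, Complex.ofReal_one]
    linear_combination (γ * starRingEnd ℂ γ * (a * starRingEnd ℂ a - b * starRingEnd ℂ b)) * he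
  exact_mod_cast key

private lemma step_shift {T n : ℤ} {X : CC} (h : HS 0 (ex T * star X)) :
    HS (n - T) (ex n * star X) := by
  have h1 : ex n * star X = ex (n - T) * (ex T * star X) := by
    rw [← mul_assoc, ex_mul, sub_add_cancel]
  rw [h1]
  have h2 := HS.ex_mul (n - T) h
  rwa [add_zero] at h2

private lemma step_norm_w (A H : CC) (γ : ℂ) (n : ℤ) (hA : ∀ x, ‖A x‖ * ‖H x‖ ≤ 1) :
    ‖γ • (ex n * star A * H)‖ ≤ ‖γ‖ := by
  rw [ContinuousMap.norm_le _ (norm_nonneg _)]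
  intro x
  have h1 : (γ • (ex n * star A * H)) x = γ * (ex n x * starRingEnd ℂ (A x) * H x) := rfl
  rw [h1, norm_mul, norm_mul, norm_mul, norm_ex, one_mul, RCLike.norm_conj]
  calc ‖γ‖ * (‖A x‖ * ‖H x‖) ≤ ‖γ‖ * 1 := mul_le_mul_of_nonneg_left (hA x) (norm_nonneg _)
    _ = ‖γ‖ := mul_one _

/-- the Neumann series -/
private lemma step_inv (w : CC) (hw : ‖w‖ < 1) (h1 : HS 1 w) :
    ∃ R : CC, (1 + w) * R = 1 ∧ HS 0 R ∧ co 0 R = 1 := by
  have hw0 : HS 0 (-w) := by
    have h := HS.smul (-1) (HS.mono h1 (by norm_num : (0:ℤ) ≤ 1))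
    have h5 : ((-1 : ℂ)) • w = -w := by
      refine ContinuousMap.ext fun x => ?_
      show (-1 : ℂ) * w x = -(w x)
      ring
    rwa [h5] at h
  have hn : ‖-w‖ < 1 := by rwa [norm_neg]
  have hs : Summable (fun k : ℕ => (-w) ^ k) := summable_geometric_of_norm_lt_one hn
  refine ⟨∑' k : ℕ, (-w) ^ k, ?_, ?_, ?_⟩
  · have h := mul_neg_geom_series (-w) hn
    rwa [sub_neg_eq_add] at h
  · refine (HS.closed 0).mem_of_tendsto hs.hasSum.tendsto_sum_nat ?_
    refine Filter.Eventually.of_forall fun N => ?_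
    show HS 0 (∑ k ∈ Finset.range N, (-w) ^ k)
    induction N with
    | zero =>
      rw [Finset.sum_range_zero]
      intro k _
      exact co_zero' k
    | succ N ih =>
      rw [Finset.sum_range_succ]
      exact ih.add (HS.pow0 hw0 N)
  · have h := mul_neg_geom_series (-w) hn
    rw [sub_neg_eq_add] at h
    have hR : HS 0 (∑' k : ℕ, (-w) ^ k) := by
      refine (HS.closed 0).mem_of_tendsto hs.hasSum.tendsto_sum_nat ?_
      refine Filter.Eventually.of_forall fun N => ?_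
      show HS 0 (∑ k ∈ Finset.range N, (-w) ^ k)
      induction N with
      | zero =>
        rw [Finset.sum_range_zero]
        intro k _
        exact co_zero' k
      | succ N ih =>
        rw [Finset.sum_range_succ]
        exact ih.add (HS.pow0 hw0 N)
    have h2 : co 0 ((1 + w) * ∑' k : ℕ, (-w) ^ k) = 1 := by
      rw [h, co_one, if_pos rfl]
    rw [add_mul, one_mul, co_add] at h2
    have h3 : co 0 (w * ∑' k : ℕ, (-w) ^ k) = 0 := by
      have h4 := HS.mul h1 hR
      exact h4 0 (by norm_num)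
    rw [h3, add_zero] at h2
    exact h2

/-- `Stage.next` with `(1 + w) * H' = H` -/
theorem Stage.next2 {T n : ℤ} {A B H : CC} {ρ : ℝ} (h : Stage T A B H ρ) (hn : T < n) (γ : ℂ) (hγ : ‖γ‖ < 1) :
    ∃ A' B' H' w : CC, Stage n A' B' H' ((1 - ‖γ‖ ^ 2) * ρ) ∧
      A' * H' = A * H + (γ * (ρ : ℂ)) • (ex n * (H * H')) ∧ ‖w‖ < 1 ∧ HS 1 w ∧ (1 + w) * H' = H := by
  have hρ := h.pos
  have hn0 : (0:ℤ) ≤ n - T := by omega
  have hn1 : (1:ℤ) ≤ n - T := by omega
  have hγ1 : 0 < 1 - ‖γ‖ ^ 2 := by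
    have := norm_nonneg γ
    nlinarith
  have hBH : ∀ x, B x * H x = 1 := fun x => congrArg (fun φ : CC => φ x) h.inv
  have hAH : ∀ x, ‖A x‖ * ‖H x‖ ≤ 1 := by
    intro x
    have h1 : ‖B x‖ * ‖H x‖ = 1 := by rw [← norm_mul, hBH x, norm_one]
    have h2 := h.id x
    have h3 : ‖A x‖ ≤ ‖B x‖ := by
      have h4 : ‖A x‖ ^ 2 ≤ ‖B x‖ ^ 2 := by linarith
      exact (sq_le_sq₀ (norm_nonneg _) (norm_nonneg _)).mp h4
    calc ‖A x‖ * ‖H x‖ ≤ ‖B x‖ * ‖H x‖ := mul_le_mul_of_nonneg_right h3 (norm_nonneg _)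
      _ = 1 := h1
  have hsA : HS (n - T) (ex n * star A) := step_shift h.specA'
  have hsB : HS (n - T) (ex n * star B) := step_shift h.specB'
  have hw1 : HS 1 (γ • (ex n * star A * H)) := by
    refine HS.smul γ ?_
    have h1 := HS.mul hsA h.specH
    rw [add_zero] at h1
    exact h1.mono hn1
  have hwn := lt_of_le_of_lt (step_norm_w A H γ n hAH) hγ
  obtain ⟨R, hR1, hR2, hR3⟩ := step_inv _ hwn hw1
  have hee : ex n * star (ex n) = 1 := by
    rw [star_ex, ex_mul, add_neg_cancel, ex_zero]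
  have heex : ∀ x, ex n x * starRingEnd ℂ (ex n x) = 1 :=
    fun x => congrArg (fun φ : CC => φ x) hee
  have hstB : star (γ • (ex n * star B)) = starRingEnd ℂ γ • (star (ex n) * B) := by
    rw [star_smul, star_mul', star_star]; rfl
  have hstA : star (γ • (ex n * star A)) = starRingEnd ℂ γ • (star (ex n) * A) := by
    rw [star_smul, star_mul', star_star]; rfl
  have hinv : (B + γ • (ex n * star A)) * (H * R) = 1 := by
    have h1 : (B + γ • (ex n * star A)) * (H * R)
        = (B * H) * R + (γ • (ex n * star A * H)) * R := by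
      simp only [smul_mul_assoc, add_mul]
      ring_nf
    rw [h1, h.inv, ← add_mul, hR1]
  refine ⟨A + γ • (ex n * star B), B + γ • (ex n * star A), H * R, γ • (ex n * star A * H), ?_, ?_, hwn, hw1, by
    calc (1 + γ • (ex n * star A * H)) * (H * R) = ((1 + γ • (ex n * star A * H)) * R) * H := by ring
      _ = H := by rw [hR1, one_mul]⟩
  · refine ⟨hinv, ?_, ?_, ?_, ?_, h.specH.mul0 hR2, ?_, mul_pos hγ1 hρ, ?_⟩
    · exact h.specA.add ((hsB.mono hn0).smul γ)
    · rw [star_add, mul_add, hstB, mul_smul_comm, ← mul_assoc, hee, one_mul]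
      exact (hsA.mono hn0).add (h.specB.smul _)
    · exact h.specB.add ((hsA.mono hn0).smul γ)
    · rw [star_add, mul_add, hstA, mul_smul_comm, ← mul_assoc, hee, one_mul]
      exact (hsB.mono hn0).add (h.specA.smul _)
    · rw [co_mul_zero h.specH hR2, h.coH, hR3, mul_one]
    · intro x
      have h1 := step_point (A x) (B x) (ex n x) γ (heex x)
      rw [h.id x] at h1
      exact h1
  · have h1 : (A + γ • (ex n * star B)) * (H * R)
        = A * H * ((B + γ • (ex n * star A)) * (H * R))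
          + (γ • (ex n * (star B * B - star A * A))) * (H * (H * R)) := by
      have h2 : B * H = 1 := h.inv
      have h3 : (A + γ • (ex n * star B)) * (H * R)
        = ((A + γ • (ex n * star B)) * B) * (H * (H * R)) := by
        calc (A + γ • (ex n * star B)) * (H * R)
            = ((A + γ • (ex n * star B)) * (H * R)) * (B * H) := by rw [h2, mul_one]
          _ = _ := by ring
      rw [h3]
      have hc : ∀ X : CC, γ • X = (γ • (1 : CC)) * X := by
        intro X
        rw [smul_mul_assoc, one_mul]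
      rw [hc (ex n * star B), hc (ex n * star A), hc (ex n * (star B * B - star A * A))]
      generalize γ • (1 : CC) = c
      ring
    rw [h1, hinv, mul_one, step_star_mul A B ρ h.id]
    simp only [mul_smul_comm, smul_mul_assoc, mul_one, smul_smul]

end Pool.Agent.SLit
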