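import Pool.Agent.Lib_SLit.SchL
import Pool.Agent.Lib_SLitE.Step2
import Pool.Agent.Lib_SLitE.LogInt

/-!
# SLitE piece ENT: the entropy of the Schur functions of the cascade
-/

set_option autoImplicit false

namespace Pool.Agent.SLit

open MeasureTheory AddCircle

/-- Schur function of the cascade, with `∫ log |H| = 0` -/
def Sch2 (T : ℤ) (F : CC) (ρ : ℝ) : Prop :=
  ∃ A B H, Stage T A B H ρ ∧ F = A * H ∧ ∫ x, Real.log ‖H x‖ ∂(haarAddCircle (T := (1:ℝ))) = 0

/-- `∫ - log (1 - |F|²)` -/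
noncomputable def ent (F : CC) : ℝ := ∫ x, -Real.log (1 - ‖F x‖ ^ 2) ∂(haarAddCircle (T := (1:ℝ)))

theorem Sch2.sch {T : ℤ} {F : CC} {ρ : ℝ} (h : Sch2 T F ρ) : Sch T F ρ := by
  obtain ⟨A, B, H, hs, hF, -⟩ := h
  exact ⟨A, B, H, hs, hF⟩

theorem sch2_zero {T : ℤ} (hT : 0 ≤ T) : Sch2 T 0 1 := by
  refine ⟨0, 1, 1, ⟨?_, HS.zero 0, ?_, HS.one, ?_, HS.one, ?_, one_pos, ?_⟩, ?_, ?_⟩
  · rw [mul_one]
  · rw [star_zero, mul_zero]
    exact HS.zero 0
  · rw [star_one, mul_one]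
    exact (HS.ex T).mono hT
  · rw [co_one, if_pos rfl]
  · intro x
    simp
  · rw [zero_mul]
  · simp

theorem stage_ne {T : ℤ} {A B H : CC} {ρ : ℝ} (h : Stage T A B H ρ) (x : UnitAddCircle) : H x ≠ 0 := by
  intro h0
  have h1 : B x * H x = 1 := by
    have := congrArg (fun f : CC => f x) h.inv
    simpa using this
  rw [h0, mul_zero] at h1
  exact zero_ne_one h1

theorem stage_sq {T : ℤ} {A B H : CC} {ρ : ℝ} (hs : Stage T A B H ρ) (x : UnitAddCircle) :
    1 - ‖(A * H) x‖ ^ 2 = ρ * ‖H x‖ ^ 2 := by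
  have h1 : B x * H x = 1 := by
    have := congrArg (fun f : CC => f x) hs.inv
    simpa using this
  have h2 : ‖B x‖ * ‖H x‖ = 1 := by rw [← norm_mul, h1, norm_one]
  have h4 := hs.id x
  have h5 : ‖A x‖ ^ 2 = ‖B x‖ ^ 2 - ρ := by linarith
  have h6 : (‖B x‖ * ‖H x‖) ^ 2 = 1 := by rw [h2, one_pow]
  rw [ContinuousMap.mul_apply, norm_mul, mul_pow, h5]
  rw [mul_pow] at h6
  linarith [sub_mul (‖B x‖ ^ 2) ρ (‖H x‖ ^ 2)]

theorem sch2_next {T n : ℤ} {F : CC} {ρ : ℝ} (h : Sch2 T F ρ) (hn : T < n) (γ : ℂ) (hγ : ‖γ‖ < 1) :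
    ∃ F' : CC, Sch2 n F' ((1 - ‖γ‖ ^ 2) * ρ) ∧ (∀ p < n, co p F' = co p F) ∧
      co n F' = co n F + γ * (ρ : ℂ) := by
  obtain ⟨A, B, H, hs, rfl, hi⟩ := h
  obtain ⟨A', B', H', w, hs', hF, hw, hw1, hH⟩ := hs.next2 hn γ hγ
  have hHH : HS 0 (H * H') := HS.mul0 hs.specH hs'.specH
  have hco : co 0 (H * H') = 1 := by
    rw [co_mul_zero hs.specH hs'.specH, hs.coH, hs'.coH, mul_one]
  refine ⟨A' * H', ⟨A', B', H', hs', rfl, ?_⟩, ?_, ?_⟩
  · have hne : ∀ x, H' x ≠ 0 := stage_ne hs'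
    have hpt : ∀ x, Real.log ‖H' x‖ = Real.log ‖H x‖ - Real.log ‖(1 + w) x‖ := by
      intro x
      have h1 : (1 + w) x * H' x = H x := by
        have := congrArg (fun f : CC => f x) hH
        simpa using this
      have h2 : (1 + w) x ≠ 0 := by
        intro h0
        rw [h0, zero_mul] at h1
        exact stage_ne hs x h1.symm
      rw [← h1, norm_mul, Real.log_mul (norm_ne_zero_iff.2 h2) (norm_ne_zero_iff.2 (hne x))]
      ring
    have hI1 : Integrable (fun x => Real.log ‖H x‖) (haarAddCircle (T := (1:ℝ))) := by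
      refine integrable_cc _ ?_
      exact Continuous.log (by fun_prop) fun x => norm_ne_zero_iff.2 (stage_ne hs x)
    have hI2 : Integrable (fun x => Real.log ‖(1 + w) x‖) (haarAddCircle (T := (1:ℝ))) := by
      refine integrable_cc _ ?_
      refine Continuous.log (by fun_prop) fun x => norm_ne_zero_iff.2 ?_
      intro h0
      have h1 : (1 + w) x * H' x = H x := by
        have := congrArg (fun f : CC => f x) hH
        simpa using this
      rw [h0, zero_mul] at h1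
      exact stage_ne hs x h1.symm
    simp only [hpt]
    rw [integral_sub hI1 hI2, hi, log_int hw hw1, sub_zero]
  · intro p hp
    rw [hF, co_add, co_smul, co_ex_mul, hHH (p - n) (by omega), mul_zero, add_zero]
  · rw [hF, co_add, co_smul, co_ex_mul, sub_self, hco, mul_one]

theorem sch2_lt {T : ℤ} {F : CC} {ρ : ℝ} (h : Sch2 T F ρ) (x : UnitAddCircle) : ‖F x‖ < 1 := by
  obtain ⟨A, B, H, hs, rfl, -⟩ := h
  have h1 := stage_sq hs x
  have h2 : 0 < ρ * ‖H x‖ ^ 2 := by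
    have := hs.pos
    have := norm_pos_iff.2 (stage_ne hs x)
    positivity
  have h3 : ‖(A * H) x‖ ^ 2 < 1 := by linarith
  have h4 := norm_nonneg ((A * H) x)
  nlinarith

theorem sch2_ent {T : ℤ} {F : CC} {ρ : ℝ} (h : Sch2 T F ρ) : ent F = -Real.log ρ := by
  obtain ⟨A, B, H, hs, rfl, hi⟩ := h
  have hpt : ∀ x, -Real.log (1 - ‖(A * H) x‖ ^ 2) = -Real.log ρ - 2 * Real.log ‖H x‖ := by
    intro x
    have h1 := norm_pos_iff.2 (stage_ne hs x)
    rw [stage_sq hs x, Real.log_mul hs.pos.ne' (by positivity), Real.log_pow]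
    push_cast
    ring
  have hI1 : Integrable (fun x => Real.log ‖H x‖) (haarAddCircle (T := (1:ℝ))) := by
    refine integrable_cc _ ?_
    exact Continuous.log (by fun_prop) fun x => norm_ne_zero_iff.2 (stage_ne hs x)
  unfold ent
  simp only [hpt]
  rw [integral_sub (integrable_const _) (hI1.const_mul 2), integral_const_mul, hi]
  simp

end Pool.Agent.SLit
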