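import Pool.Agent.Lib_SLitE.Two2

/-!
# SLitE: the lower bound with the constant `0.3423`
-/

set_option autoImplicit false

namespace Pool.Agent.SLit

open MeasureTheory Set Real

theorem fa_anti {a : ℝ} (ha : 0 ≤ a) (m : ℕ) (hm : 1 ≤ m) :
    1 / (a + 4 * ((m + 1 : ℕ) : ℝ)) ≤ 1 / (a + 4 * (m : ℝ)) := by
  have hm' : (1:ℝ) ≤ m := by exact_mod_cast hm
  refine one_div_le_one_div_of_le (by linarith) ?_
  push_cast; linarith

theorem one_sum {s : ℝ} (hs : 1000 ≤ s) (N : ℕ) :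
    ∑ j ∈ Finset.range N, 1 / (4 * (s + ((N : ℝ) - j)) - 1) ≤ (1 / 4) * Real.log (N + 1) := by
  have hmono : StrictMono (fun j : ℕ => (j : ℤ)) := by
    intro a b h
    show (a : ℤ) < (b : ℤ)
    exact_mod_cast h
  have h1 := merge (f := fun m => 1 / ((4 * s - 1) + 4 * (m : ℝ))) (fa_anti (by linarith)) N N 0
    (fun j => (j : ℤ)) (fun j => (j : ℤ)) hmono hmono (by omega)
  have h2 := sum_low (a := 4 * s - 1) (by linarith) N
  refine le_trans (le_of_eq ?_) (h1.trans h2)
  unfold half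
  rw [Finset.sum_range_zero, add_zero]
  refine Finset.sum_congr rfl fun j hj => ?_
  have hj' := Finset.mem_range.1 hj
  have h3 : (((N - j) + (0 - kap 0 (fun j => (j : ℤ)) (j : ℤ)) : ℕ) : ℝ) = (N : ℝ) - j := by
    rw [Nat.zero_sub, add_zero, Nat.cast_sub hj'.le]
  show _ = 1 / ((4 * s - 1) + 4 * (((N - j) + (0 - kap 0 (fun j => (j : ℤ)) (j : ℤ)) : ℕ) : ℝ))
  rw [h3]
  congr 1
  ring

theorem two_sum {s : ℝ} (hs : 1000 ≤ s) (N M : ℕ) (t u : ℕ → ℤ) (ht : StrictMono t) (hu : StrictMono u) :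
    ∑ j ∈ Finset.range N, 1 / ((4 * (s + ((N : ℝ) - j)) - 1) + (4 * (s + ((M : ℝ) - kap M u (t j))) - 1)) +
      ∑ i ∈ Finset.range M, 1 / ((4 * (s + ((M : ℝ) - i)) - 1) + (4 * (s + ((N : ℝ) - kap N t (u i))) - 1)) ≤
      (1 / 4) * Real.log (((N + M : ℕ) : ℝ) + 1) := by
  have h1 := merge (f := fun m => 1 / ((8 * s - 2) + 4 * (m : ℝ))) (fa_anti (by linarith)) (N + M) N M
    t u ht hu rfl
  have h2 := sum_low (a := 8 * s - 2) (by linarith) (N + M)
  refine le_trans (le_of_eq ?_) (h1.trans h2)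
  have key : ∀ (N M : ℕ) (t u : ℕ → ℤ),
      ∑ j ∈ Finset.range N, 1 / ((4 * (s + ((N : ℝ) - j)) - 1) + (4 * (s + ((M : ℝ) - kap M u (t j))) - 1)) =
      half (fun m => 1 / ((8 * s - 2) + 4 * (m : ℝ))) N M t u := by
    intro N M t u
    unfold half
    refine Finset.sum_congr rfl fun j hj => ?_
    have hj' := Finset.mem_range.1 hj
    have h3 : (((N - j) + (M - kap M u (t j)) : ℕ) : ℝ) = ((N : ℝ) - j) + ((M : ℝ) - kap M u (t j)) := by
      rw [Nat.cast_add, Nat.cast_sub hj'.le, Nat.cast_sub (kap_le M u (t j))]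
    show _ = 1 / ((8 * s - 2) + 4 * (((N - j) + (M - kap M u (t j)) : ℕ) : ℝ))
    rw [h3]
    congr 1
    ring
  rw [key N M t u, key M N u t]

/-- numerical value -/
theorem num_val : (0.3423 : ℝ) ≤
    (3 * 0.538 - 3 * 0.538 ^ 3) * (0.99999 / π) - 7 / 48 * 0.538 ^ 3 := by
  have hπ := Real.pi_pos
  have h1 : 0.318309 ≤ 1 / π := by
    rw [le_div_iff₀ hπ]; have := Real.pi_lt_d6; nlinarith
  have h2 : 0.99999 / π = 0.99999 * (1 / π) := by ring
  rw [h2]
  nlinarith

/-- lower bound for the sum of the `br` -/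
theorem br_sum {g r s : ℝ} (hg0 : 0 ≤ g) (hg1 : g ≤ 3 / 5) (hr : 0.95 ≤ r) (hs : 1000 ≤ s)
    (N M : ℕ) (t u : ℕ → ℤ) (ht : StrictMono t) (hu : StrictMono u) :
    (3 * g - 3 * g ^ 3) * (r / π) / 2 * ((Real.log (N + 1) - Real.log (s + 1)) +
      (Real.log (M + 1) - Real.log (s + 1))) - g ^ 3 / 8 * ((1 / 6) * (Real.log (N + 1) + Real.log (M + 1)) +
        (5 / 6) * Real.log (((N + M : ℕ) : ℝ) + 1)) ≤
      ∑ j ∈ Finset.range N, br g r s N M j (kap M u (t j)) + ∑ i ∈ Finset.range M, br g r s M N i (kap N t (u i)) := by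
  have hπ := Real.pi_pos
  have hg3 : 0 ≤ g ^ 3 := pow_nonneg hg0 3
  have hb : 0 ≤ (3 * g - 3 * g ^ 3) * (r / π) / 2 := by
    have h1 : 0 ≤ g * (1 - g ^ 2) := mul_nonneg hg0 (by nlinarith)
    have h2 : 0 ≤ 3 * g - 3 * g ^ 3 := by nlinarith
    have h3 : 0 ≤ r / π := div_nonneg (by linarith) hπ.le
    positivity
  have e : ∀ (N M : ℕ) (t u : ℕ → ℤ), ∑ j ∈ Finset.range N, br g r s N M j (kap M u (t j)) =
      (3 * g - 3 * g ^ 3) * (r / π) / 2 * ∑ j ∈ Finset.range N, 1 / (s + ((N : ℝ) - j)) -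
      g ^ 3 / 2 * ((1 / 6) * ∑ j ∈ Finset.range N, 1 / (4 * (s + ((N : ℝ) - j)) - 1) +
        (5 / 6) * ∑ j ∈ Finset.range N, 1 / ((4 * (s + ((N : ℝ) - j)) - 1) +
          (4 * (s + ((M : ℝ) - kap M u (t j))) - 1))) := by
    intro N M t u
    rw [Finset.mul_sum, Finset.mul_sum, Finset.mul_sum, ← Finset.sum_add_distrib, Finset.mul_sum,
      ← Finset.sum_sub_distrib]
    refine Finset.sum_congr rfl fun j _ => ?_
    unfold br
    ring
  rw [e N M t u, e M N u t]
  have h1 := mul_le_mul_of_nonneg_left (harm s (by linarith) N) hb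
  have h2 := mul_le_mul_of_nonneg_left (harm s (by linarith) M) hb
  have h3 := mul_le_mul_of_nonneg_left (one_sum hs N) hg3
  have h4 := mul_le_mul_of_nonneg_left (one_sum hs M) hg3
  have h5 := mul_le_mul_of_nonneg_left (two_sum hs N M t u ht hu) hg3
  linarith

theorem entropy_bound : ∃ C : ℝ, ∀ (A : Finset ℤ) (c : ℤ → ℂ), (∀ a ∈ A, 1 ≤ ‖c a‖) →
    0.3423 * Real.log (A.card : ℝ) - C ≤
      ∫ x in (0:ℝ)..1, ‖∑ a ∈ A, c a * Complex.exp (2 * (Real.pi : ℂ) * Complex.I * (a : ℂ) * (x : ℂ))‖ := by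
  classical
  have hπ := Real.pi_pos
  obtain ⟨s, hs, hF⟩ := two_sided2 (g := 0.538) (r := 0.99999) (by norm_num) (by norm_num) (by norm_num)
    (by norm_num)
  have hnum := num_val
  have hls : 0 ≤ Real.log (s + 1) := Real.log_nonneg (by linarith)
  have hl2 : 0 ≤ Real.log 2 := Real.log_nonneg (by norm_num)
  obtain ⟨b, hb⟩ : ∃ b : ℝ, b = (3 * 0.538 - 3 * 0.538 ^ 3) * (0.99999 / π) := ⟨_, rfl⟩
  rw [← hb] at hnum
  have hb0 : 0 ≤ b := by linarith
  refine ⟨b * (Real.log 2 + Real.log (s + 1)), fun A c hc => ?_⟩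
  rcases A.eq_empty_or_nonempty with h0 | hA
  · subst h0
    have h1 : 0 ≤ ∫ x in (0:ℝ)..1, ‖∑ a ∈ (∅ : Finset ℤ), c a *
        Complex.exp (2 * (Real.pi : ℂ) * Complex.I * (a : ℂ) * (x : ℂ))‖ :=
      intervalIntegral.integral_nonneg (by norm_num) fun x _ => norm_nonneg _
    have h2 : 0 ≤ b * (Real.log 2 + Real.log (s + 1)) := mul_nonneg hb0 (by linarith)
    refine le_trans ?_ h1
    simp only [Finset.card_empty, Nat.cast_zero, Real.log_zero, mul_zero]
    linarith
  obtain ⟨x0, hx0, hl, hr⟩ := exists_median A hA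
  have hn0 : 0 < A.card := hA.card_pos
  set R := A.filter (fun a => x0 < a) with hR
  set L := A.filter (fun a => a < x0) with hL
  obtain ⟨t, ht, ht0, htR⟩ := enum (R.image (fun a => a - x0)) 1 (by
    intro b hb
    rw [Finset.mem_image] at hb
    obtain ⟨a, ha, rfl⟩ := hb
    rw [hR, Finset.mem_filter] at ha
    omega)
  obtain ⟨u, hu, hu0, huL⟩ := enum (L.image (fun a => x0 - a)) 1 (by
    intro b hb
    rw [Finset.mem_image] at hb
    obtain ⟨a, ha, rfl⟩ := hb
    rw [hL, Finset.mem_filter] at ha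
    omega)
  have hcR : (R.image (fun a => a - x0)).card = R.card :=
    Finset.card_image_of_injective _ (fun a b h => by simpa using h)
  have hcL : (L.image (fun a => x0 - a)).card = L.card :=
    Finset.card_image_of_injective _ (fun a b h => by simpa using h)
  rw [hcR] at htR
  rw [hcL] at huL
  have hmemR : ∀ j < R.card, t j + x0 ∈ A := by
    intro j hj
    have h1 : t j ∈ R.image (fun a => a - x0) := by
      rw [htR]; exact Finset.mem_image_of_mem _ (Finset.mem_range.2 hj)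
    rw [Finset.mem_image] at h1
    obtain ⟨a, ha, h2⟩ := h1
    have : t j + x0 = a := by omega
    rw [this]; exact (Finset.mem_filter.1 ha).1
  have hmemL : ∀ j < L.card, x0 - u j ∈ A := by
    intro j hj
    have h1 : u j ∈ L.image (fun a => x0 - a) := by
      rw [huL]; exact Finset.mem_image_of_mem _ (Finset.mem_range.2 hj)
    rw [Finset.mem_image] at h1
    obtain ⟨a, ha, h2⟩ := h1
    have : x0 - u j = a := by omega
    rw [this]; exact (Finset.mem_filter.1 ha).1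
  obtain ⟨F, hF1, hF0, hFt, hFu⟩ := hF R.card L.card t u ht hu ht0 hu0 (fun j => c (t j + x0))
    (fun i => c (x0 - u i)) (fun j hj => hc _ (hmemR j hj)) (fun i hi => hc _ (hmemL i hi))
  have hsumR : ∑ a ∈ R, (co (a - x0) F * (starRingEnd ℂ) (c a)).re =
      ∑ j ∈ Finset.range R.card, (co (t j) F * (starRingEnd ℂ) (c (t j + x0))).re := by
    have h1 : ∑ a ∈ R, (co (a - x0) F * (starRingEnd ℂ) (c a)).re =
        ∑ b ∈ R.image (fun a => a - x0), (co b F * (starRingEnd ℂ) (c (b + x0))).re := by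
      rw [Finset.sum_image (fun a _ b _ h => by simpa using h)]
      exact Finset.sum_congr rfl fun a _ => by rw [sub_add_cancel]
    rw [h1, htR, Finset.sum_image (fun a _ b _ h => ht.injective h)]
  have hsumL : ∑ a ∈ L, (co (a - x0) F * (starRingEnd ℂ) (c a)).re =
      ∑ j ∈ Finset.range L.card, (co (-(u j)) F * (starRingEnd ℂ) (c (x0 - u j))).re := by
    have h1 : ∑ a ∈ L, (co (a - x0) F * (starRingEnd ℂ) (c a)).re =
        ∑ b ∈ L.image (fun a => x0 - a), (co (-b) F * (starRingEnd ℂ) (c (x0 - b))).re := by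
      rw [Finset.sum_image (fun a _ b _ h => by simpa using h)]
      exact Finset.sum_congr rfl fun a _ => by rw [neg_sub, sub_sub_cancel]
    rw [h1, huL, Finset.sum_image (fun a _ b _ h => hu.injective h)]
  have hsplit : ∑ a ∈ A, (co (a - x0) F * (starRingEnd ℂ) (c a)).re =
      ∑ a ∈ R, (co (a - x0) F * (starRingEnd ℂ) (c a)).re +
      ∑ a ∈ L, (co (a - x0) F * (starRingEnd ℂ) (c a)).re := by
    have hdisj : Disjoint R L := by
      rw [Finset.disjoint_left]
      intro a ha hb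
      rw [hR, Finset.mem_filter] at ha
      rw [hL, Finset.mem_filter] at hb
      omega
    rw [← Finset.sum_union hdisj]
    refine (Finset.sum_subset ?_ ?_).symm
    · intro a ha
      rw [Finset.mem_union, hR, hL, Finset.mem_filter, Finset.mem_filter] at ha
      rcases ha with ha | ha <;> exact ha.1
    · intro a ha hna
      rw [Finset.mem_union, hR, hL, Finset.mem_filter, Finset.mem_filter] at hna
      have h1 : ¬ (x0 < a) := fun h => hna (Or.inl ⟨ha, h⟩)
      have h2 : ¬ (a < x0) := fun h => hna (Or.inr ⟨ha, h⟩)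
      have h3 : a - x0 = 0 := by omega
      rw [h3, hF0, zero_mul, Complex.zero_re]
  have hp := pairing F hF1 A c x0
  have hp2 : ∑ a ∈ A, (co (a - x0) F * (starRingEnd ℂ) (c a)).re ≤
      ∫ x in (0:ℝ)..1, ‖∑ a ∈ A, c a * Complex.exp (2 * (Real.pi : ℂ) * Complex.I * (a : ℂ) * (x : ℂ))‖ := by
    rw [← Complex.re_sum]
    exact (Complex.re_le_norm _).trans hp
  refine le_trans ?_ hp2
  rw [hsplit, hsumR, hsumL]
  have hbr := br_sum (g := 0.538) (r := 0.99999) (by norm_num) (by norm_num) (by norm_num) hs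
    R.card L.card t u ht hu
  have hR1 : ∑ j ∈ Finset.range R.card, br 0.538 0.99999 s R.card L.card j (kap L.card u (t j)) ≤
      ∑ j ∈ Finset.range R.card, (co (t j) F * (starRingEnd ℂ) (c (t j + x0))).re :=
    Finset.sum_le_sum fun j hj => hFt j (Finset.mem_range.1 hj)
  have hL1 : ∑ j ∈ Finset.range L.card, br 0.538 0.99999 s L.card R.card j (kap R.card t (u j)) ≤
      ∑ j ∈ Finset.range L.card, (co (-(u j)) F * (starRingEnd ℂ) (c (x0 - u j))).re :=
    Finset.sum_le_sum fun j hj => hFu j (Finset.mem_range.1 hj)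
  refine le_trans ?_ (hbr.trans (add_le_add hR1 hL1))
  rw [← hb]
  -- cardinalities
  obtain ⟨n, hn⟩ : ∃ n : ℕ, n = A.card := ⟨_, rfl⟩
  rw [← hn] at hl hr hn0 ⊢
  have hnR : (0:ℝ) < n := by exact_mod_cast hn0
  have hNM : ((R.card + L.card : ℕ) : ℝ) + 1 = n := by
    have : R.card + L.card + 1 = n := by omega
    exact_mod_cast this
  have hN1 : (n:ℝ) ≤ 2 * ((R.card : ℝ) + 1) := by
    have : n ≤ 2 * (R.card + 1) := by omega
    exact_mod_cast this
  have hM1 : (n:ℝ) ≤ 2 * ((L.card : ℝ) + 1) := by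
    have : n ≤ 2 * (L.card + 1) := by omega
    exact_mod_cast this
  have hN2 : ((R.card : ℝ) + 1) ≤ n := by
    have : R.card + 1 ≤ n := by omega
    exact_mod_cast this
  have hM2 : ((L.card : ℝ) + 1) ≤ n := by
    have : L.card + 1 ≤ n := by omega
    exact_mod_cast this
  have hN0 : (0:ℝ) < (R.card : ℝ) + 1 := by positivity
  have hM0 : (0:ℝ) < (L.card : ℝ) + 1 := by positivity
  have e1 := Real.log_le_log hnR hN1
  have e2 := Real.log_le_log hnR hM1
  rw [Real.log_mul (by norm_num) hN0.ne'] at e1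
  rw [Real.log_mul (by norm_num) hM0.ne'] at e2
  have e3 := Real.log_le_log hN0 hN2
  have e4 := Real.log_le_log hM0 hM2
  rw [hNM]
  have hlogn : 0 ≤ Real.log (n:ℝ) := Real.log_natCast_nonneg n
  have f1 := mul_le_mul_of_nonneg_left e1 hb0
  have f2 := mul_le_mul_of_nonneg_left e2 hb0
  have f3 := mul_le_mul_of_nonneg_right hnum hlogn
  nlinarith

end Pool.Agent.SLit
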