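import Mathlib

/-!
# SLitE piece MERGE: the merged harmonic sum
-/

set_option autoImplicit false

namespace Pool.Agent.SLit

open Real

/-- number of times `u i < p`, `i < M` -/
def kap (M : ℕ) (u : ℕ → ℤ) (p : ℤ) : ℕ := ((Finset.range M).filter (fun i => u i < p)).card

theorem kap_le (M : ℕ) (u : ℕ → ℤ) (p : ℤ) : kap M u p ≤ M := by
  have := Finset.card_filter_le (Finset.range M) (fun i => u i < p)
  rwa [Finset.card_range] at this

/-- the times `u i`, `i ≥ kap`, are `≥ p` -/
theorem kap_spec {M : ℕ} {u : ℕ → ℤ} (hu : StrictMono u) {p : ℤ} (h : kap M u p < M) : p ≤ u (kap M u p) := by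
  by_contra hcon
  push Not at hcon
  have h1 : Finset.range (kap M u p + 1) ⊆ (Finset.range M).filter (fun i => u i < p) := by
    intro i hi
    rw [Finset.mem_range] at hi
    rw [Finset.mem_filter, Finset.mem_range]
    exact ⟨by omega, lt_of_le_of_lt (hu.monotone (by omega)) hcon⟩
  have h2 := Finset.card_le_card h1
  rw [Finset.card_range] at h2
  unfold kap at h2
  omega

theorem kap_zero {M : ℕ} {u : ℕ → ℤ} {p : ℤ} (h : ∀ i < M, p ≤ u i) : kap M u p = 0 := by
  unfold kap
  rw [Finset.card_eq_zero, Finset.filter_eq_empty_iff]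
  intro i hi
  rw [Finset.mem_range] at hi
  have := h i hi
  omega

theorem kap_succ (N : ℕ) (t : ℕ → ℤ) (p : ℤ) : kap (N + 1) t p ≤ kap N (fun j => t (j + 1)) p + 1 := by
  unfold kap
  have h1 : (Finset.range (N + 1)).filter (fun i => t i < p) ⊆
      insert 0 (((Finset.range N).filter (fun i => t (i + 1) < p)).image (fun i => i + 1)) := by
    intro i hi
    rw [Finset.mem_filter, Finset.mem_range] at hi
    rw [Finset.mem_insert, Finset.mem_image]
    rcases Nat.eq_zero_or_pos i with h0 | h0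
    · exact Or.inl h0
    · refine Or.inr ⟨i - 1, ?_, by omega⟩
      rw [Finset.mem_filter, Finset.mem_range]
      have : i - 1 + 1 = i := by omega
      rw [this]
      exact ⟨by omega, hi.2⟩
  refine (Finset.card_le_card h1).trans ((Finset.card_insert_le _ _).trans ?_)
  exact Nat.add_le_add_right Finset.card_image_le 1

/-- one half of the merged sum -/
def half (f : ℕ → ℝ) (N M : ℕ) (t u : ℕ → ℤ) : ℝ :=
  ∑ j ∈ Finset.range N, f ((N - j) + (M - kap M u (t j)))

theorem anti {f : ℕ → ℝ} (hf : ∀ m, 1 ≤ m → f (m + 1) ≤ f m) {a b : ℕ} (ha : 1 ≤ a) (hab : a ≤ b) : f b ≤ f a := by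
  induction b, hab using Nat.le_induction with
  | base => exact le_rfl
  | succ n hn ih => exact (hf n (by omega)).trans ih

theorem merge_step {f : ℕ → ℝ} (hf : ∀ m, 1 ≤ m → f (m + 1) ≤ f m) {n N M : ℕ} (t u : ℕ → ℤ)
    (hn : N + 1 + M = n + 1) (h0 : ∀ i < M, t 0 ≤ u i)
    (ih : half f N M (fun j => t (j + 1)) u + half f M N u (fun j => t (j + 1)) ≤ ∑ m ∈ Finset.Icc 1 n, f m) :
    half f (N + 1) M t u + half f M (N + 1) u t ≤ ∑ m ∈ Finset.Icc 1 (n + 1), f m := by
  rw [Finset.sum_Icc_succ_top (by omega)]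
  have h1 : half f (N + 1) M t u = half f N M (fun j => t (j + 1)) u + f (n + 1) := by
    unfold half
    rw [Finset.sum_range_succ']
    congr 1
    · refine Finset.sum_congr rfl fun j _ => ?_
      rw [Nat.add_sub_add_right]
    · rw [kap_zero h0]
      congr 1
  have h2 : half f M (N + 1) u t ≤ half f M N u (fun j => t (j + 1)) := by
    unfold half
    refine Finset.sum_le_sum fun i hi => ?_
    rw [Finset.mem_range] at hi
    refine anti hf (by omega) ?_
    have h3 := kap_succ N t (u i)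
    have h4 := kap_le (N + 1) t (u i)
    have h5 := kap_le N (fun j => t (j + 1)) (u i)
    omega
  linarith

/-- the merged sum -/
theorem merge {f : ℕ → ℝ} (hf : ∀ m, 1 ≤ m → f (m + 1) ≤ f m) (n : ℕ) :
    ∀ (N M : ℕ) (t u : ℕ → ℤ), StrictMono t → StrictMono u → N + M = n →
      half f N M t u + half f M N u t ≤ ∑ m ∈ Finset.Icc 1 n, f m := by
  induction n with
  | zero =>
    intro N M t u _ _ hn
    have hN : N = 0 := by omega
    have hM : M = 0 := by omega
    subst hN hM
    simp [half]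
  | succ n ih =>
    intro N M t u ht hu hn
    have key : ∀ (N M : ℕ) (t u : ℕ → ℤ), StrictMono t → StrictMono u → N + 1 + M = n + 1 →
        (∀ i < M, t 0 ≤ u i) → half f (N + 1) M t u + half f M (N + 1) u t ≤ ∑ m ∈ Finset.Icc 1 (n + 1), f m := by
      intro N M t u ht hu hn h0
      refine merge_step hf t u hn h0 (ih N M _ u ?_ hu (by omega))
      exact fun a b hab => ht (by omega)
    by_cases hc : 0 < N ∧ ∀ i < M, t 0 ≤ u i
    · obtain ⟨N', rfl⟩ : ∃ N', N = N' + 1 := ⟨N - 1, by omega⟩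
      exact key N' M t u ht hu hn hc.2
    · have hc2 : 0 < M ∧ ∀ j < N, u 0 ≤ t j := by
        rw [not_and_or] at hc
        rcases hc with hc | hc
        · exact ⟨by omega, fun j hj => by omega⟩
        · push Not at hc
          obtain ⟨i, hi, hi2⟩ := hc
          refine ⟨by omega, fun j _ => ?_⟩
          have h1 := hu.monotone (Nat.zero_le i)
          have h2 := ht.monotone (Nat.zero_le j)
          omega
      obtain ⟨M', rfl⟩ : ∃ M', M = M' + 1 := ⟨M - 1, by omega⟩
      rw [add_comm]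
      exact key M' N u t hu ht (by omega) hc2.2

theorem sum_low {a : ℝ} (ha : 4 ≤ a) (n : ℕ) :
    ∑ m ∈ Finset.Icc 1 n, 1 / (a + 4 * (m : ℝ)) ≤ (1 / 4) * Real.log (n + 1) := by
  induction n with
  | zero => simp
  | succ n ih =>
    rw [Finset.sum_Icc_succ_top (by omega)]
    have hn : (0:ℝ) ≤ n := Nat.cast_nonneg n
    have h1 : 1 / (a + 4 * ((n + 1 : ℕ) : ℝ)) ≤ 1 / 4 * (Real.log (((n + 1 : ℕ) : ℝ) + 1) - Real.log (n + 1)) := by
      push_cast
      have h2 : 1 - ((n:ℝ) + 1) / ((n:ℝ) + 1 + 1) ≤ Real.log ((n:ℝ) + 1 + 1) - Real.log ((n:ℝ) + 1) := by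
        have h3 := Real.log_le_sub_one_of_pos (x := ((n:ℝ) + 1) / ((n:ℝ) + 1 + 1)) (by positivity)
        rw [Real.log_div (by positivity) (by positivity)] at h3
        linarith
      have h4 : 1 - ((n:ℝ) + 1) / ((n:ℝ) + 1 + 1) = 1 / ((n:ℝ) + 2) := by
        field_simp
        ring
      rw [h4] at h2
      have h5 : 1 / (a + 4 * ((n:ℝ) + 1)) ≤ 1 / 4 * (1 / ((n:ℝ) + 2)) := by
        rw [one_div_mul_one_div, div_le_div_iff₀ (by positivity) (by positivity)]
        nlinarith
      linarith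
    linarith

end Pool.Agent.SLit
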