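import Pool.Agent.Lib_SLit.OneSided
import Pool.Agent.Lib_SLitE.Ent

/-!
# SLitE piece ONESIDED2: the one-sided theorem with all stages and their entropies
-/

set_option autoImplicit false

namespace Pool.Agent.SLit

open MeasureTheory Set Real

/-- invariant after `k` steps -/
structure Inv2 (r s : ℝ) (N : ℕ) (t : ℕ → ℤ) (ε : ℕ → ℂ) (k : ℕ) (F : CC) (ρ : ℝ) : Prop where
  sch : Sch2 (if k = 0 then 0 else t (k - 1)) F ρ
  hs : HS (t 0) F
  hit : ∀ j < k, co (t j) F = ((r / π / (s + ((N : ℝ) - j)) : ℝ) : ℂ) * ε j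
  gap : ∀ p : ℤ, ∀ j < k, p < t j → (∀ i < j, t i < p) →
    ‖co p F‖ ≤ 0.63 * (r / π) / (s + ((N : ℝ) - j))
  rho : 1 - ρ ≤ (1 / 4) * ∑ m ∈ Finset.Icc 1 k, 1 / (s + ((N : ℝ) - k) + m) ^ 2

theorem inv_step2 {r s : ℝ} (hr : 0.95 ≤ r) (hr1 : r < 1) (hs : 1000 ≤ s)
    (hnum : ∀ σ : ℝ, s ≤ σ →
      (1 / 4 - r ^ 2 * (1 / π - 1 / 4) + 1 / (4 * π * σ)) ≤ 0.63 * (r / π) ∧
      (1 / 4 - r ^ 2 * (1 / π - 1 / 4) + 1 / (4 * π * σ)) + r / π ≤ (1 / 2) * (1 - 1 / (4 * σ)))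
    {N : ℕ} {t : ℕ → ℤ} (ht : StrictMono t) (ht0 : 0 < t 0) {ε : ℕ → ℂ} (hε : ∀ j, ‖ε j‖ = 1)
    {k : ℕ} (hk : k < N) {F : CC} {ρ : ℝ} (h : Inv2 r s N t ε k F ρ) :
    ∃ F' ρ', Inv2 r s N t ε (k + 1) F' ρ' ∧ ∀ p < t k, co p F' = co p F := by
  have hπ := Real.pi_pos
  set σ : ℝ := s + ((N : ℝ) - k) with hσdef
  have hkN : (k : ℝ) + 1 ≤ N := by exact_mod_cast hk
  have hσs : s + 1 ≤ σ := by linarith
  have hσ : 1000 ≤ σ := by linarith
  have hσ0 : 0 < σ := by linarith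
  obtain ⟨hn1, hn2⟩ := hnum σ (by linarith)
  set M : ℝ := 1 / 4 - r ^ 2 * (1 / π - 1 / 4) + 1 / (4 * π * σ) with hM
  -- the last time
  set T : ℤ := if k = 0 then 0 else t (k - 1) with hT
  have hTk : T < t k := by
    rw [hT]
    split_ifs with h0
    · rw [h0]; exact ht0
    · exact ht (by omega)
  have hlow : ∀ n : ℤ, T < n → (∀ j < k, t j < n) := by
    intro n hn j hj
    have hk0 : k ≠ 0 := by omega
    rw [hT, if_neg hk0] at hn
    exact lt_of_le_of_lt (ht.monotone (by omega)) hn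
  have hmain : ∀ n : ℤ, T < n → ‖co n F‖ ≤ M / σ := by
    intro n hn
    refine main_est hr hr1 hσ k t ht n (hlow n hn) h.sch.sch hn ε hε ?_ ?_ ?_
    · intro j hj
      rw [h.hit j hj]
      congr 3
      rw [hσdef]; ring
    · intro p j hj hp hi
      refine (h.gap p j hj hp hi).trans (le_of_eq ?_)
      congr 1
      rw [hσdef]; ring
    · exact h.rho
  -- gap bound before `t k`
  have hgapk : ∀ p : ℤ, p < t k → (∀ i < k, t i < p) → ‖co p F‖ ≤ 0.63 * (r / π) / σ := by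
    intro p hp hi
    by_cases h0 : k = 0
    · have h1 : co p F = 0 := h.hs p (by rw [h0] at hp; exact hp)
      rw [h1, norm_zero]
      have : 0 ≤ r := by linarith
      positivity
    · have h1 : T < p := by
        rw [hT, if_neg h0]; exact hi (k - 1) (by omega)
      exact (hmain p h1).trans (div_le_div_of_nonneg_right hn1 hσ0.le)
  have hρ0 : 0 < ρ := sch_pos h.sch.sch
  have hρ1 : 1 - ρ ≤ 1 / (4 * σ) := by
    refine h.rho.trans ?_
    have h1 := sum_inv_sq_le hσ0 k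
    have h2 : 0 < 1 / (σ + k) := by positivity
    have h3 : 1 / (4 * σ) = 1 / 4 * (1 / σ) := by field_simp
    rw [h3]
    refine mul_le_mul_of_nonneg_left ?_ (by norm_num)
    linarith
  have hρle : ρ ≤ 1 := by
    have h1 := sch_energy h.sch.sch
    have h2 := nsq_nonneg F
    linarith
  -- the new parameter
  set g : ℝ := r / π / σ with hg
  have hg0 : 0 ≤ g := by have : 0 ≤ r := by linarith
                         positivity
  set γ : ℂ := (((g : ℝ) : ℂ) * ε k - co (t k) F) / (ρ : ℂ) with hγdef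
  have hγ : ‖γ‖ ≤ 1 / (2 * σ) := by
    have h1 : ‖((g : ℝ) : ℂ) * ε k - co (t k) F‖ ≤ g + M / σ := by
      refine (norm_sub_le _ _).trans (add_le_add ?_ (hmain (t k) hTk))
      rw [norm_mul, hε, mul_one, Complex.norm_real, Real.norm_eq_abs, abs_of_nonneg hg0]
    rw [hγdef, norm_div, Complex.norm_real, Real.norm_eq_abs, abs_of_pos hρ0, div_le_iff₀ hρ0]
    refine h1.trans ?_
    have h2 : g + M / σ = (M + r / π) / σ := by rw [hg]; ring
    rw [h2, div_le_iff₀ hσ0]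
    have h3 : 1 / (2 * σ) * ρ * σ = ρ / 2 := by field_simp
    rw [h3]
    linarith
  have hγ1 : ‖γ‖ < 1 := by
    refine lt_of_le_of_lt hγ ?_
    rw [div_lt_one (by positivity)]
    linarith
  obtain ⟨F', hS', hag, hco⟩ := sch2_next h.sch hTk γ hγ1
  have hco' : co (t k) F' = ((g : ℝ) : ℂ) * ε k := by
    rw [hco, hγdef]
    have : (ρ : ℂ) ≠ 0 := by exact_mod_cast hρ0.ne'
    field_simp
    ring
  have hρ' : 1 - (1 - ‖γ‖ ^ 2) * ρ ≤
      (1 / 4) * ∑ m ∈ Finset.Icc 1 (k + 1), 1 / (s + ((N : ℝ) - (k + 1 : ℕ)) + m) ^ 2 := by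
    have h1 : s + ((N : ℝ) - (k + 1 : ℕ)) = σ - 1 := by rw [hσdef]; push_cast; ring
    rw [h1, shift_sum]
    have h2 := h.rho
    have h3 : ‖γ‖ ^ 2 ≤ 1 / 4 * (1 / σ ^ 2) := by
      calc ‖γ‖ ^ 2 ≤ (1 / (2 * σ)) ^ 2 := pow_le_pow_left₀ (norm_nonneg _) hγ 2
        _ = 1 / 4 * (1 / σ ^ 2) := by field_simp; norm_num
    have h4 : ‖γ‖ ^ 2 * ρ ≤ ‖γ‖ ^ 2 := mul_le_of_le_one_right (by positivity) hρle
    rw [mul_add]
    nlinarith
  refine ⟨F', (1 - ‖γ‖ ^ 2) * ρ, ⟨?_, ?_, ?_, ?_, hρ'⟩, hag⟩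
  · simpa using hS'
  · intro p hp
    rw [hag p (lt_of_lt_of_le hp (ht.monotone (Nat.zero_le k)))]
    exact h.hs p hp
  · intro j hj
    rcases Nat.lt_succ_iff_lt_or_eq.1 hj with h1 | h1
    · rw [hag (t j) (ht h1)]
      exact h.hit j h1
    · subst h1
      exact hco'
  · intro p j hj hp hi
    rcases Nat.lt_succ_iff_lt_or_eq.1 hj with h1 | h1
    · rw [hag p (hp.trans (ht h1))]
      exact h.gap p j h1 hp hi
    · subst h1
      rw [hag p hp]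
      exact hgapk p hp hi

theorem inv2_ent {r s : ℝ} (hs : 1000 ≤ s) {N : ℕ} {t : ℕ → ℤ} {ε : ℕ → ℂ} {k : ℕ} (hk : k ≤ N) {F : CC} {ρ : ℝ}
    (h : Inv2 r s N t ε k F ρ) : ent F ≤ 1 / (4 * (s + ((N : ℝ) - k)) - 1) := by
  rw [sch2_ent h.sch]
  have hkN : (k : ℝ) ≤ N := by exact_mod_cast hk
  obtain ⟨σ, hσ⟩ : ∃ σ : ℝ, σ = s + ((N : ℝ) - k) := ⟨_, rfl⟩
  have h0 := h.rho
  rw [← hσ] at h0 ⊢
  have hσ1 : 1000 ≤ σ := by rw [hσ]; linarith
  have hσ0 : 0 < σ := by linarith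
  have h1 := sum_inv_sq_le hσ0 k
  have h2 : 0 < 1 / (σ + k) := by positivity
  have hρ : 1 - ρ ≤ 1 / (4 * σ) := by
    refine h0.trans ?_
    have h3 : 1 / (4 * σ) = 1 / 4 * (1 / σ) := by field_simp
    rw [h3]
    refine mul_le_mul_of_nonneg_left ?_ (by norm_num)
    linarith
  have hρ0 : 0 < ρ := sch_pos h.sch.sch
  have hρ2 : 1 - 1 / (4 * σ) ≤ ρ := by linarith
  have h5 : (4 * σ - 1) / (4 * σ) ≤ ρ := by
    have : (4 * σ - 1) / (4 * σ) = 1 - 1 / (4 * σ) := by field_simp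
    rw [this]; exact hρ2
  have h4 : -Real.log ρ ≤ ρ⁻¹ - 1 := by
    have := Real.log_le_sub_one_of_pos (inv_pos.2 hρ0)
    rw [Real.log_inv] at this
    exact this
  have h6 : 0 < (4 * σ - 1) / (4 * σ) := div_pos (by linarith) (by linarith)
  have h7 : ρ⁻¹ ≤ ((4 * σ - 1) / (4 * σ))⁻¹ := inv_anti₀ h6 h5
  have h8 : ((4 * σ - 1) / (4 * σ))⁻¹ - 1 = 1 / (4 * σ - 1) := by
    have : (4 * σ - 1) ≠ 0 := by linarith
    rw [inv_div]
    field_simp
    ring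
  linarith

theorem one_sided2 {r : ℝ} (hr : 0.95 ≤ r) (hr1 : r < 1) :
    ∃ s : ℝ, 1000 ≤ s ∧ ∀ (N : ℕ) (t : ℕ → ℤ), StrictMono t → 0 < t 0 → ∀ ε : ℕ → ℂ, (∀ j, ‖ε j‖ = 1) →
      ∃ G : ℕ → CC, (∀ k ≤ N, (∀ x, ‖G k x‖ < 1) ∧ HS (t 0) (G k) ∧
          ent (G k) ≤ 1 / (4 * (s + ((N : ℝ) - k)) - 1)) ∧
        (∀ k ≤ N, ∀ p < t k, co p (G k) = co p (G N)) ∧
        (∀ j < N, co (t j) (G N) = ((r / π / (s + ((N : ℝ) - j)) : ℝ) : ℂ) * ε j) := by
  obtain ⟨s, hs, hnum⟩ := num_cond hr hr1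
  refine ⟨s, hs, fun N t ht ht0 ε hε => ?_⟩
  have key : ∀ k ≤ N, ∃ G : ℕ → CC, (∀ i ≤ k, ∃ ρ, Inv2 r s N t ε i (G i) ρ) ∧
      (∀ i ≤ k, ∀ p < t i, co p (G i) = co p (G k)) := by
    intro k
    induction k with
    | zero =>
      intro _
      refine ⟨fun _ => 0, ?_, fun _ _ _ _ => rfl⟩
      intro i hi
      have hi0 : i = 0 := by omega
      subst hi0
      refine ⟨1, ?_, ?_, ?_, ?_, ?_⟩
      · simpa using sch2_zero le_rfl
      · intro p _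
        exact co_zero' p
      · intro j hj; omega
      · intro p j hj; omega
      · simp
    | succ k ih =>
      intro hk
      obtain ⟨G, hG, hag⟩ := ih (by omega)
      obtain ⟨ρ, h⟩ := hG k le_rfl
      obtain ⟨F', ρ', h', hag'⟩ := inv_step2 hr hr1 hs hnum ht ht0 hε (by omega) h
      refine ⟨fun i => if i ≤ k then G i else F', ?_, ?_⟩
      · intro i hi
        by_cases hik : i ≤ k
        · simp only [if_pos hik]
          exact hG i hik
        · have : i = k + 1 := by omega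
          subst this
          simp only [if_neg hik]
          exact ⟨ρ', h'⟩
      · intro i hi p hp
        have hk1 : ¬ (k + 1 ≤ k) := by omega
        by_cases hik : i ≤ k
        · simp only [if_pos hik, if_neg hk1]
          rw [hag i hik p hp, hag' p (lt_of_lt_of_le hp (ht.monotone hik))]
        · simp only [if_neg hik, if_neg hk1]
  obtain ⟨G, hG, hag⟩ := key N le_rfl
  refine ⟨G, ?_, hag, ?_⟩
  · intro k hk
    obtain ⟨ρ, h⟩ := hG k hk
    exact ⟨fun x => sch2_lt h.sch x, h.hs, inv2_ent hs hk h⟩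
  · obtain ⟨ρ, h⟩ := hG N le_rfl
    exact h.hit

end Pool.Agent.SLit
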