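import Pool.Agent.Lib_SLit.Phi

/-!
# SLitE piece PHIE: the cubic combination `3 s - 4 s ^ 3`
-/

set_option autoImplicit false

namespace Pool.Agent.SLit

open Real

/-- The bound on the torus. -/
theorem phiE_torus (b : ℕ → ℝ) (K : ℕ)
    (h : ∀ q : ℂ, ‖q‖ = 1 → |∑ k ∈ Finset.range (K + 1), b k * (q ^ (2 * k + 1)).re| ≤ 1)
    (u v : ℂ) (hu : ‖u‖ = 1) (hv : ‖v‖ = 1) :
    ‖∑ k ∈ Finset.range (K + 1), ((b k / 2 : ℝ) : ℂ) *
        (u ^ (k + 1) * v ^ k + (starRingEnd ℂ) (v ^ (k + 1) * u ^ k))‖ ≤ 1 := by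
  obtain ⟨q, hq⟩ := IsAlgClosed.exists_pow_nat_eq (u * v) (n := 2) two_pos
  have hqn : ‖q‖ = 1 := by
    have h1 : ‖q‖ ^ 2 = 1 := by
      rw [← norm_pow, hq, norm_mul, hu, hv, one_mul]
    nlinarith [norm_nonneg q]
  have hqc : q * (starRingEnd ℂ) q = 1 := by
    rw [Complex.mul_conj, Complex.normSq_eq_norm_sq, hqn]
    norm_num
  have hvc : v * (starRingEnd ℂ) v = 1 := by
    rw [Complex.mul_conj, Complex.normSq_eq_norm_sq, hv]
    norm_num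
  have hvq : (starRingEnd ℂ) v = u * (starRingEnd ℂ) q ^ 2 := by
    calc (starRingEnd ℂ) v = (q * (starRingEnd ℂ) q) ^ 2 * (starRingEnd ℂ) v := by
          rw [hqc, one_pow, one_mul]
      _ = (u * v) * (starRingEnd ℂ) q ^ 2 * (starRingEnd ℂ) v := by
          rw [mul_pow, hq]
      _ = (v * (starRingEnd ℂ) v) * (u * (starRingEnd ℂ) q ^ 2) := by ring
      _ = u * (starRingEnd ℂ) q ^ 2 := by rw [hvc, one_mul]
  have hterm : ∀ k : ℕ, ((b k / 2 : ℝ) : ℂ) *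
      (u ^ (k + 1) * v ^ k + (starRingEnd ℂ) (v ^ (k + 1) * u ^ k)) =
      u * (starRingEnd ℂ) q * ((b k * (q ^ (2 * k + 1)).re : ℝ) : ℂ) := by
    intro k
    have e1 : u ^ (k + 1) * v ^ k = u * (starRingEnd ℂ) q * q ^ (2 * k + 1) := by
      have : u ^ (k + 1) * v ^ k = u * (u * v) ^ k := by
        rw [mul_pow]
        ring
      rw [this, ← hq, ← pow_mul]
      calc u * q ^ (2 * k) = u * (q * (starRingEnd ℂ) q) * q ^ (2 * k) := by rw [hqc, mul_one]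
        _ = u * (starRingEnd ℂ) q * q ^ (2 * k + 1) := by ring
    have e2 : (starRingEnd ℂ) (v ^ (k + 1) * u ^ k) =
        u * (starRingEnd ℂ) q * (starRingEnd ℂ) (q ^ (2 * k + 1)) := by
      have : v ^ (k + 1) * u ^ k = v * (u * v) ^ k := by
        rw [mul_pow]
        ring
      rw [this, ← hq, ← pow_mul, map_mul, map_pow, map_pow, hvq]
      ring
    have e3 : q ^ (2 * k + 1) + (starRingEnd ℂ) (q ^ (2 * k + 1)) =
        ((2 * (q ^ (2 * k + 1)).re : ℝ) : ℂ) := Complex.add_conj _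
    rw [e1, e2, ← mul_add, e3]
    push_cast
    ring
  rw [Finset.sum_congr rfl fun k _ => hterm k, ← Finset.mul_sum, ← Complex.ofReal_sum, norm_mul,
    norm_mul, hu, RCLike.norm_conj, hqn, one_mul, one_mul, Complex.norm_real, Real.norm_eq_abs]
  exact h q hqn

/-- The bound on the bidisc. -/
theorem phiE_disc (b : ℕ → ℝ) (K : ℕ)
    (h : ∀ q : ℂ, ‖q‖ = 1 → |∑ k ∈ Finset.range (K + 1), b k * (q ^ (2 * k + 1)).re| ≤ 1)
    (u v : ℂ) (hu : ‖u‖ ≤ 1) (hv : ‖v‖ ≤ 1) :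
    ‖∑ k ∈ Finset.range (K + 1), ((b k / 2 : ℝ) : ℂ) *
        (u ^ (k + 1) * v ^ k + (starRingEnd ℂ) (v ^ (k + 1) * u ^ k))‖ ≤ 1 := by
  have hsplit : ∀ u v : ℂ, ∑ k ∈ Finset.range (K + 1), ((b k / 2 : ℝ) : ℂ) *
        (u ^ (k + 1) * v ^ k + (starRingEnd ℂ) (v ^ (k + 1) * u ^ k)) =
      (∑ k ∈ Finset.range (K + 1), ((b k / 2 : ℝ) : ℂ) * (u ^ (k + 1) * v ^ k)) +
      (starRingEnd ℂ) (∑ k ∈ Finset.range (K + 1), ((b k / 2 : ℝ) : ℂ) * (v ^ (k + 1) * u ^ k)) := by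
    intro u v
    rw [map_sum, ← Finset.sum_add_distrib]
    refine Finset.sum_congr rfl fun k _ => ?_
    have h1 : (starRingEnd ℂ) (((b k / 2 : ℝ) : ℂ) * (v ^ (k + 1) * u ^ k)) =
        ((b k / 2 : ℝ) : ℂ) * (starRingEnd ℂ) (v ^ (k + 1) * u ^ k) := by
      rw [map_mul, Complex.conj_ofReal]
    rw [h1, mul_add]
  have step1 : ∀ v : ℂ, ‖v‖ = 1 → ∀ u : ℂ, ‖u‖ ≤ 1 →
      ‖∑ k ∈ Finset.range (K + 1), ((b k / 2 : ℝ) : ℂ) *
        (u ^ (k + 1) * v ^ k + (starRingEnd ℂ) (v ^ (k + 1) * u ^ k))‖ ≤ 1 := by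
    intro v hv u hu
    rw [hsplit]
    refine maxp (fun u => ∑ k ∈ Finset.range (K + 1), ((b k / 2 : ℝ) : ℂ) * (u ^ (k + 1) * v ^ k))
      (fun u => ∑ k ∈ Finset.range (K + 1), ((b k / 2 : ℝ) : ℂ) * (v ^ (k + 1) * u ^ k))
      (by fun_prop) (by fun_prop) (fun z hz => ?_) u hu
    have := phiE_torus b K h z v hz hv
    rwa [hsplit] at this
  rw [hsplit]
  refine maxp (fun v => ∑ k ∈ Finset.range (K + 1), ((b k / 2 : ℝ) : ℂ) * (u ^ (k + 1) * v ^ k))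
    (fun v => ∑ k ∈ Finset.range (K + 1), ((b k / 2 : ℝ) : ℂ) * (v ^ (k + 1) * u ^ k))
    (by fun_prop) (by fun_prop) (fun z hz => ?_) v hv
  have := step1 z hz u hu
  rwa [hsplit] at this

/-- the coefficients: `b 0 = 3 g - 3 g ^ 3`, `b 1 = - g ^ 3` -/
noncomputable def bE (g : ℝ) (k : ℕ) : ℝ := if k = 0 then 3 * g - 3 * g ^ 3 else -g ^ 3

theorem phiE {g : ℝ} (hg0 : 0 ≤ g) (hg1 : g ≤ 1) (u v : ℂ) (hu : ‖u‖ ≤ 1) (hv : ‖v‖ ≤ 1) :
    ‖∑ k ∈ Finset.range (1 + 1), ((bE g k / 2 : ℝ) : ℂ) *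
        (u ^ (k + 1) * v ^ k + (starRingEnd ℂ) (v ^ (k + 1) * u ^ k))‖ ≤ 1 := by
  refine phiE_disc (bE g) 1 (fun q hq => ?_) u v hu hv
  have h1 : (q ^ 3).re = 4 * q.re ^ 3 - 3 * q.re := by
    have h2 : q.re ^ 2 + q.im ^ 2 = 1 := by
      have h3 : Complex.normSq q = 1 := by rw [Complex.normSq_eq_norm_sq, hq]; norm_num
      rw [Complex.normSq_apply] at h3
      nlinarith
    have h3 : (q ^ 3).re = q.re ^ 3 - 3 * q.re * q.im ^ 2 := by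
      rw [pow_succ, pow_two]
      simp only [Complex.mul_re, Complex.mul_im]
      ring
    rw [h3]
    have h4 : q.im ^ 2 = 1 - q.re ^ 2 := by linarith
    rw [h4]; ring
  have hre : |q.re| ≤ 1 := by
    have := Complex.abs_re_le_norm q
    rwa [hq] at this
  rw [Finset.sum_range_succ, Finset.sum_range_one]
  simp only [bE, if_true, one_ne_zero, if_false, mul_zero, zero_add, pow_one, mul_one]
  rw [show (2 + 1 : ℕ) = 3 by norm_num, h1]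
  obtain ⟨s, hs⟩ : ∃ s : ℝ, s = g * q.re := ⟨_, rfl⟩
  have e : (3 * g - 3 * g ^ 3) * q.re + -g ^ 3 * (4 * q.re ^ 3 - 3 * q.re) = 3 * s - 4 * s ^ 3 := by
    rw [hs]; ring
  have hs1 : |s| ≤ 1 := by
    rw [hs, abs_mul, abs_of_nonneg hg0]
    exact mul_le_one₀ hg1 (abs_nonneg _) hre
  rw [e]
  have hs2 := abs_le.1 hs1
  rw [abs_le]
  constructor
  · nlinarith [mul_nonneg (show 0 ≤ 1 - s by linarith) (sq_nonneg (1 + 2 * s))]
  · nlinarith [mul_nonneg (show 0 ≤ 1 + s by linarith) (sq_nonneg (1 - 2 * s))]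

end Pool.Agent.SLit
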