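import Pool.Agent.Lib_SLitE.Cross
import Pool.Agent.Lib_SLitE.OneSided2
import Pool.Agent.Lib_SLitE.Merge
import Pool.Agent.Lib_SLitE.PhiE
import Pool.Agent.Lib_SLit.Dense
import Pool.Agent.Lib_SLit.One

/-!
# SLitE piece TWO2: the two-sided test function with the entropy bound for the mixed coefficient
-/

set_option autoImplicit false

namespace Pool.Agent.SLit

open MeasureTheory Set Real

theorem combE_pos {g : ℝ} {U V : CC} (hU : HS 1 U) (hV : HS 1 V) {n : ℤ} (hn : 0 < n) :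
    co n (comb 1 (bE g) U V) =
      (((3 * g - 3 * g ^ 3) / 2 : ℝ) : ℂ) * co n U + ((-g ^ 3 / 2 : ℝ) : ℂ) * co n (U * U * V) := by
  rw [co_comb, Finset.sum_range_succ, Finset.sum_range_one]
  have hV0 : co (-n) (V ^ (0 + 1) * U ^ 0) = 0 := by
    rw [pow_zero, mul_one, zero_add, pow_one]
    exact hV (-n) (by omega)
  have hV1 : co (-n) (V ^ (1 + 1) * U ^ 1) = 0 := by
    rw [pow_one, show (1 + 1 : ℕ) = 2 by norm_num, sq]
    have := HS.mul (HS.mul hV hV) hU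
    exact this (-n) (by omega)
  rw [hV0, hV1]
  simp only [map_zero, add_zero, bE, if_true, one_ne_zero, if_false, pow_zero, mul_one, zero_add, pow_one]
  have e : U ^ (1 + 1) * V = U * U * V := by ring
  rw [e]

/-- the lower bound at one frequency -/
noncomputable def br (g r s : ℝ) (N M : ℕ) (j κ : ℕ) : ℝ :=
  (3 * g - 3 * g ^ 3) / 2 * (r / π / (s + ((N : ℝ) - j))) - g ^ 3 / 2 *
    ((1 / 6) * (1 / (4 * (s + ((N : ℝ) - j)) - 1)) +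
      (5 / 6) * (1 / ((4 * (s + ((N : ℝ) - j)) - 1) + (4 * (s + ((M : ℝ) - κ)) - 1))))

theorem br_nonneg {g r s : ℝ} (hg0 : 0 ≤ g) (hg1 : g ≤ 3 / 5) (hr : 0.95 ≤ r) (hs : 1000 ≤ s) {N M j κ : ℕ}
    (hj : j < N) (hκ : κ ≤ M) : 0 ≤ br g r s N M j κ := by
  have hπ := Real.pi_pos
  have hπ4 := Real.pi_lt_four
  have h1 : (j:ℝ) + 1 ≤ N := by exact_mod_cast hj
  have h2 : (κ:ℝ) ≤ M := by exact_mod_cast hκ
  unfold br
  obtain ⟨x, hx⟩ : ∃ x : ℝ, x = s + ((N : ℝ) - j) := ⟨_, rfl⟩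
  obtain ⟨y, hy⟩ : ∃ y : ℝ, y = s + ((M : ℝ) - κ) := ⟨_, rfl⟩
  rw [← hx, ← hy]
  have hx1 : 1000 ≤ x := by linarith
  have hy1 : 1000 ≤ y := by linarith
  have h3 : 1 / ((4 * x - 1) + (4 * y - 1)) ≤ 1 / x :=
    one_div_le_one_div_of_le (by linarith) (by linarith)
  have h4 : 1 / (4 * x - 1) ≤ 1 / x := one_div_le_one_div_of_le (by linarith) (by linarith)
  have hg3 : 0 ≤ g ^ 3 := pow_nonneg hg0 3
  have h5 : g ^ 3 / 2 * ((1 / 6) * (1 / (4 * x - 1)) + (5 / 6) * (1 / ((4 * x - 1) + (4 * y - 1)))) ≤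
      g ^ 3 / 2 * (1 / x) := by
    refine mul_le_mul_of_nonneg_left ?_ (by positivity)
    linarith
  have hrπ : 19 / 80 ≤ r / π := by
    rw [le_div_iff₀ hπ]; linarith
  have h6 : (3 * g - 3 * g ^ 3) / 2 * (r / π / x) = (3 * g - 3 * g ^ 3) / 2 * (r / π) * (1 / x) := by
    ring
  rw [h6]
  have h7 : g ^ 3 / 2 ≤ (3 * g - 3 * g ^ 3) / 2 * (r / π) := by
    have h8 : 0 ≤ g * (1 - g ^ 2) := mul_nonneg hg0 (by nlinarith)
    have h9 : g ^ 3 / 2 ≤ (3 * g - 3 * g ^ 3) / 2 * (19 / 80) := by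
      have h10 : 0 ≤ g * (57 - 137 * g ^ 2) := mul_nonneg hg0 (by nlinarith)
      nlinarith
    refine h9.trans (mul_le_mul_of_nonneg_left hrπ (by nlinarith))
  have h8 := mul_le_mul_of_nonneg_right h7 (by positivity : 0 ≤ 1 / x)
  linarith

/-- one frequency -/
theorem elem {g r s : ℝ} (hg0 : 0 ≤ g) (hg1 : g ≤ 3 / 5) (hr : 0.95 ≤ r) (hs : 1000 ≤ s) {N M j κ : ℕ}
    (hj : j < N) (hκ : κ ≤ M) {z ε c w : ℂ} (hz : z = (((3 * g - 3 * g ^ 3) / 2 : ℝ) : ℂ) *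
      (((r / π / (s + ((N : ℝ) - j)) : ℝ) : ℂ) * ε) + ((-g ^ 3 / 2 : ℝ) : ℂ) * w)
    (hε : ε * (starRingEnd ℂ) c = (‖c‖ : ℂ)) (hc : 1 ≤ ‖c‖)
    (hw : ‖w‖ ≤ (1 / 6) * (1 / (4 * (s + ((N : ℝ) - j)) - 1)) +
      (5 / 6) * (1 / ((4 * (s + ((N : ℝ) - j)) - 1) + (4 * (s + ((M : ℝ) - κ)) - 1)))) :
    br g r s N M j κ ≤ (z * (starRingEnd ℂ) c).re := by
  have h0 := br_nonneg hg0 hg1 hr hs hj hκ
  have h1 : br g r s N M j κ ≤ br g r s N M j κ * ‖c‖ := le_mul_of_one_le_right h0 hc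
  refine h1.trans ?_
  have e : z * (starRingEnd ℂ) c =
      (((3 * g - 3 * g ^ 3) / 2 * (r / π / (s + ((N : ℝ) - j))) * ‖c‖ : ℝ) : ℂ) +
      ((-g ^ 3 / 2 : ℝ) : ℂ) * (w * (starRingEnd ℂ) c) := by
    rw [hz]
    push_cast
    linear_combination (3 * (g:ℂ) - 3 * (g:ℂ) ^ 3) / 2 * ((r:ℂ) / π / (s + ((N : ℂ) - j))) * hε
  rw [e, Complex.add_re, Complex.ofReal_re, Complex.re_ofReal_mul]
  have h2 : |(w * (starRingEnd ℂ) c).re| ≤ ‖w‖ * ‖c‖ := by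
    refine (Complex.abs_re_le_norm _).trans (le_of_eq ?_)
    rw [norm_mul, RCLike.norm_conj]
  have h3 := (abs_le.1 h2).2
  have hg3 : 0 ≤ g ^ 3 := pow_nonneg hg0 3
  have h4 := mul_le_mul_of_nonneg_left h3 hg3
  have h5 := mul_le_mul_of_nonneg_left (mul_le_mul_of_nonneg_right hw (norm_nonneg c)) hg3
  unfold br
  nlinarith

theorem ph_conj {z : ℂ} : (starRingEnd ℂ) (ph z) * z = (‖z‖ : ℂ) := by
  have h := congrArg (starRingEnd ℂ) (ph_mul_conj z)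
  rw [map_mul, Complex.conj_conj, Complex.conj_ofReal] at h
  exact h

theorem two_sided2 {g r : ℝ} (hg0 : 0 ≤ g) (hg1 : g ≤ 3 / 5) (hr : 0.95 ≤ r) (hr1 : r < 1) :
    ∃ s : ℝ, 1000 ≤ s ∧ ∀ (N M : ℕ) (t u : ℕ → ℤ), StrictMono t → StrictMono u → 1 ≤ t 0 → 1 ≤ u 0 →
      ∀ c d : ℕ → ℂ, (∀ j < N, 1 ≤ ‖c j‖) → (∀ i < M, 1 ≤ ‖d i‖) →
      ∃ F : CC, (∀ x, ‖F x‖ ≤ 1) ∧ co 0 F = 0 ∧
        (∀ j < N, br g r s N M j (kap M u (t j)) ≤ (co (t j) F * (starRingEnd ℂ) (c j)).re) ∧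
        (∀ i < M, br g r s M N i (kap N t (u i)) ≤ (co (-(u i)) F * (starRingEnd ℂ) (d i)).re) := by
  obtain ⟨s, hs, hF⟩ := one_sided2 hr hr1
  refine ⟨s, hs, fun N M t u ht hu ht0 hu0 c d hc hd => ?_⟩
  obtain ⟨G, hG, hGa, hGh⟩ := hF N t ht (by omega) (fun j => ph (c j)) (fun j => norm_ph _)
  obtain ⟨G', hG', hGa', hGh'⟩ := hF M u hu (by omega) (fun i => (starRingEnd ℂ) (ph (d i)))
    (fun i => by rw [RCLike.norm_conj]; exact norm_ph _)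
  -- common part
  have common : ∀ (N M : ℕ) (t u : ℕ → ℤ) (G G' : ℕ → CC) (ε : ℕ → ℂ), StrictMono t → StrictMono u →
      1 ≤ t 0 → 1 ≤ u 0 →
      (∀ k ≤ N, (∀ x, ‖G k x‖ < 1) ∧ HS (t 0) (G k) ∧ ent (G k) ≤ 1 / (4 * (s + ((N : ℝ) - k)) - 1)) →
      (∀ k ≤ N, ∀ p < t k, co p (G k) = co p (G N)) →
      (∀ j < N, co (t j) (G N) = ((r / π / (s + ((N : ℝ) - j)) : ℝ) : ℂ) * ε j) →
      (∀ k ≤ M, (∀ x, ‖G' k x‖ < 1) ∧ HS (u 0) (G' k) ∧ ent (G' k) ≤ 1 / (4 * (s + ((M : ℝ) - k)) - 1)) →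
      (∀ k ≤ M, ∀ p < u k, co p (G' k) = co p (G' M)) →
      ∀ (c : ℕ → ℂ), (∀ j < N, ε j * (starRingEnd ℂ) (c j) = (‖c j‖ : ℂ)) → (∀ j < N, 1 ≤ ‖c j‖) →
      ∀ j < N, br g r s N M j (kap M u (t j)) ≤ (co (t j) (comb 1 (bE g) (G N) (G' M)) * (starRingEnd ℂ) (c j)).re := by
    intro N M t u G G' ε ht hu ht0 hu0 hG hGa hGh hG' hGa' c hεc hc j hj
    have hU : ∀ k ≤ N, HS 1 (G k) := fun k hk => (hG k hk).2.1.mono ht0
    have hV : ∀ k ≤ M, HS 1 (G' k) := fun k hk => (hG' k hk).2.1.mono hu0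
    have htj : 0 < t j := by have := ht.monotone (Nat.zero_le j); omega
    have hκ : kap M u (t j) ≤ M := kap_le M u (t j)
    have hjN : (j:ℝ) + 1 ≤ N := by exact_mod_cast hj
    have hκM : (kap M u (t j) : ℝ) ≤ M := by exact_mod_cast hκ
    have h1 := combE_pos (g := g) (hU N le_rfl) (hV M le_rfl) htj
    rw [hGh j hj] at h1
    refine elem hg0 hg1 hr hs hj hκ h1 (hεc j hj) (hc j hj) ?_
    refine cross_bound (Us := G j) (Vs := G' (kap M u (t j))) (hU N le_rfl) (hV M le_rfl) (hU j hj.le)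
      (hGa j hj.le) ?_ (hG j hj.le).1 (hG' _ hκ).1 (by linarith) (by linarith) (hG j hj.le).2.2 (hG' _ hκ).2.2
    intro p hp
    rcases Nat.lt_or_ge (kap M u (t j)) M with h2 | h2
    · exact hGa' _ hκ p (lt_of_lt_of_le hp (kap_spec hu h2))
    · have h3 : kap M u (t j) = M := by omega
      rw [h3]
  refine ⟨comb 1 (bE g) (G N) (G' M), ?_, ?_, ?_, ?_⟩
  · exact comb_norm (phiE hg0 (by linarith)) (fun x => ((hG N le_rfl).1 x).le) (fun x => ((hG' M le_rfl).1 x).le)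
  · exact comb_zero (D := 1) one_pos ((hG N le_rfl).2.1.mono ht0) ((hG' M le_rfl).2.1.mono hu0) 0 (by norm_num)
      (by norm_num)
  · exact common N M t u G G' _ ht hu ht0 hu0 hG hGa hGh hG' hGa' c (fun j _ => ph_mul_conj _) hc
  · intro i hi
    have h1 := common M N u t G' G _ hu ht hu0 ht0 hG' hGa' hGh' hG hGa (fun i => (starRingEnd ℂ) (d i))
      (fun i _ => by rw [Complex.conj_conj, ph_conj, RCLike.norm_conj])
      (fun i hi => by rw [RCLike.norm_conj]; exact hd i hi) i hi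
    refine h1.trans (le_of_eq ?_)
    have h2 : co (-(u i)) (comb 1 (bE g) (G N) (G' M)) =
        (starRingEnd ℂ) (co (u i) (comb 1 (bE g) (G' M) (G N))) := by
      rw [← star_comb 1 (bE g) (G N) (G' M), co_star]
      simp
    rw [h2, ← map_mul, Complex.conj_re, Complex.conj_conj]

end Pool.Agent.SLit
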